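import Pool.Agent.MP_3ce0a0_al.Q2T1.Defs

/-!
Limits of actions on simplicial trees: the input data, the output, and the statements.
-/

set_option autoImplicit false

namespace Pool.Agent.MP_3ce0a0_al.Q2T5

open Q2T1 Filter Topology

/-- A very small minimal action of `U` on a tree-space all of whose points are branch points,
extended to a betweenness preserving action of the ambient group. -/
structure VS {G : Type} [Group G] (U : Subgroup G) (X : Type) [MetricSpace X] [MulAction G X] :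
    Prop where
  tree : IsTree X
  ne : Nonempty X
  isom : ∀ g ∈ U, ∀ x y : X, dist (g • x) (g • y) = dist x y
  bact : BAct G X
  br : ∀ x : X, ∃ a b c, Tri x a b c
  mini : ∀ x y z : X, y ≠ x → ∃ g ∈ U, g • z ∈ dir x y
  dich : Dich X U
  v1 : ∀ g ∈ U, ∀ h ∈ U, ∀ x y : X, x ≠ y → g • x = x → g • y = y → h • x = x → h • y = y →
    g * h = h * g
  v2 : ∀ g ∈ U, ∀ r : ℕ, g ^ r ≠ 1 → ∀ x y : X, x ≠ y → g ^ r • x = x → g ^ r • y = y → g • x = x
  v3 : ∀ g ∈ U, g ≠ 1 → ∀ m a b c : X, Tri m a b c → g • a = a → g • b = b → g • c ≠ c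

/-- The input: isometric actions `ρ j` of `U` on simplicial trees, edge stabilisers acting
trivially, with minimal displacement `μ j` at `x j`, and coarse actions `σ j` of the ambient group
whose defects are small compared with `μ j`. -/
structure Seq {G : Type} [Group G] (U : Subgroup G) (ω : Ultrafilter ℕ) (S : ℕ → Type)
    [∀ j, MetricSpace (S j)] (ρ : ∀ j, U →* Equiv.Perm (S j)) (σ : ∀ j, G →* Equiv.Perm (S j))
    (A : Finset U) (x : ∀ j, S j) (μ err : ℕ → ℝ) : Prop where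
  nrm : U.Normal
  tf : ∀ g : U, g * g = 1 → g = 1
  nm : ∃ a b c d : U, ¬ Commute (a * b * a⁻¹ * b⁻¹) (c * d * c⁻¹ * d⁻¹)
  gen : Subgroup.closure (A : Set U) = ⊤
  simp : ∀ j, IsSimp (S j)
  isom : ∀ j g y z, dist (ρ j g y) (ρ j g z) = dist y z
  edge : ∀ j g y z, y ≠ z → ρ j g y = y → ρ j g z = z → ρ j g = 1
  faith : ∀ g : U, g ≠ 1 → ∀ᶠ j in ω, ρ j g ≠ 1
  base : ∀ j, ∀ a ∈ A, dist (x j) (ρ j a (x j)) ≤ μ j
  least : ∀ j y, ∃ a ∈ A, μ j ≤ dist y (ρ j a y)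
  pos : ∀ᶠ j in ω, 0 < μ j
  small : Tendsto (fun j => err j / μ j) ω (𝓝 0)
  lip : ∀ β : G, ∃ L : ℝ, ∀ j y z, dist (σ j β y) (σ j β z) ≤ L * dist y z
  btw : ∀ β : G, ∃ L : ℝ, ∀ j y m z, Btw y m z →
    dist (σ j β y) (σ j β m) + dist (σ j β m) (σ j β z) ≤ dist (σ j β y) (σ j β z) + L * err j
  near : ∀ g : U, ∃ L : ℝ, ∀ j y, dist (σ j g y) (ρ j g y) ≤ L * err j
  equi : ∀ j (β : G) (g g' : U), (g' : G) = β * g * β⁻¹ → ∀ y, σ j β (ρ j g y) = ρ j g' (σ j β y)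

/-- The general limit statement. -/
def SLimit : Prop :=
  ∀ (G : Type) [Group G] (U : Subgroup G) (ω : Ultrafilter ℕ) (S : ℕ → Type)
    [∀ j, MetricSpace (S j)] (ρ : ∀ j, U →* Equiv.Perm (S j)) (σ : ∀ j, G →* Equiv.Perm (S j))
    (A : Finset U) (x : ∀ j, S j) (μ err : ℕ → ℝ), Seq U ω S ρ σ A x μ err →
    ∃ (X : Type) (_ : MetricSpace X) (_ : MulAction G X), VS U X ∧
      (∀ β : G, (∀ j y z, dist (σ j β y) (σ j β z) = dist y z) →
        ∀ p q : X, dist (β • p) (β • q) = dist p q) ∧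
      (∀ g : U, Ell X (g : G) ↔ ∀ ε : ℝ, 0 < ε → ∀ᶠ j in ω, ∃ y, dist y (ρ j g y) ≤ ε * μ j) ∧
      (∀ g : U, g ≠ 1 → (∀ᶠ j in ω, ∃ y, ρ j g y = y) →
        ∀ p q : X, (g : G) • p = p → (g : G) • q = q → p = q)

/-- The isometric case: the ambient group acts on every tree by isometries. -/
def SLimitIso : Prop :=
  ∀ (G : Type) [Group G] (U : Subgroup G) [U.Normal] (k : ℕ), 2 ≤ k →
    Nonempty (U ≃* FreeGroup (Fin k)) →
    ∀ (S : ℕ → Type) [∀ j, MetricSpace (S j)] [∀ j, MulAction G (S j)]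
      [∀ j, IsIsometricSMul G (S j)] [∀ j, IsSimp (S j)] [∀ j, Nonempty (S j)],
    (∀ j, ∀ g ∈ U, ∀ y z : S j, y ≠ z → g • y = y → g • z = z → ∀ w : S j, g • w = w) →
    (∀ g ∈ U, g ≠ 1 → ∀ᶠ j in atTop, ∃ w : S j, g • w ≠ w) →
    (∀ᶠ j in atTop, ∀ y : S j, ∃ g ∈ U, g • y ≠ y) →
    ∃ (X : Type) (_ : MetricSpace X) (_ : MulAction G X) (_ : IsIsometricSMul G X), VS U X ∧
      ∀ g ∈ U, (∀ᶠ j in atTop, Ell (S j) g) →
        Ell X g ∧ (g ≠ 1 → ∀ p q : X, g • p = p → g • q = q → p = q)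

end Pool.Agent.MP_3ce0a0_al.Q2T5
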