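import Mathlib

/-!
Free groups of rank at least two have no involutions and are not metabelian.
-/

set_option autoImplicit false

namespace Pool.Agent.MP_3ce0a0_al.Q2T5

theorem free_tf {U : Type} [Group U] {k : ℕ} (e : U ≃* FreeGroup (Fin k)) (g : U)
    (h : g * g = 1) : g = 1 := by
  apply e.injective
  rw [map_one]
  have h1 : e g ^ 2 = 1 := by rw [pow_two, ← map_mul, h, map_one]
  exact (pow_eq_one_iff_left (by norm_num)).1 h1

theorem free_nm {U : Type} [Group U] {k : ℕ} (hk : 2 ≤ k) (e : U ≃* FreeGroup (Fin k)) :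
    ∃ a b c d : U, ¬ Commute (a * b * a⁻¹ * b⁻¹) (c * d * c⁻¹ * d⁻¹) := by
  let s : Equiv.Perm (Fin 4) := Equiv.swap 0 1
  let t : Equiv.Perm (Fin 4) := Equiv.swap 0 1 * Equiv.swap 1 2 * Equiv.swap 2 3
  let f : U →* Equiv.Perm (Fin 4) :=
    (FreeGroup.lift fun i : Fin k => if i.val = 0 then s else t).comp e.toMonoidHom
  let a : U := e.symm (FreeGroup.of ⟨0, by omega⟩)
  let b : U := e.symm (FreeGroup.of ⟨1, by omega⟩)
  have ha : f a = s := by simp [f, a]
  have hb : f b = t := by simp [f, b]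
  refine ⟨a, b, a, b * b, fun h => ?_⟩
  have h1 := h.map f
  simp only [map_mul, map_inv, ha, hb] at h1
  have hs : s⁻¹ = s := Equiv.swap_inv 0 1
  have ht : t⁻¹ = Equiv.swap 2 3 * (Equiv.swap 1 2 * Equiv.swap 0 1) := by
    simp only [t, mul_inv_rev, Equiv.swap_inv]
  rw [mul_inv_rev t t, hs, ht] at h1
  have h2 := fun i => congrArg (fun p : Equiv.Perm (Fin 4) => p i) h1.eq
  simp only [s, t, Equiv.Perm.mul_apply] at h2
  revert h2
  decide

end Pool.Agent.MP_3ce0a0_al.Q2T5
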