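import Pool.Agent.MP_3ce0a0_al.Q2T5.Branch

/-!
Branch points exist, and the action on them is very small and minimal.
-/

set_option autoImplicit false

namespace Pool.Agent.MP_3ce0a0_al.Q2T5

open Q2T1

theorem real_iso {Y : Type} (t f : Y → ℝ) (L : Set Y) {p q : Y} (hp : p ∈ L) (hq : q ∈ L)
    (hne : t p ≠ t q) (h : ∀ u ∈ L, ∀ v ∈ L, |f u - f v| = |t u - t v|) :
    (∃ c, ∀ u ∈ L, f u = t u + c) ∨ ∃ c, ∀ u ∈ L, f u = -t u + c := by
  have hs : ∀ u ∈ L, ∀ v ∈ L, (f u - f v) ^ 2 = (t u - t v) ^ 2 := fun u hu v hv =>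
    sq_eq_sq_iff_abs_eq_abs _ _ |>.2 (h u hu v hv)
  have hd : t p - t q ≠ 0 := sub_ne_zero.2 hne
  rcases abs_eq_abs.1 (h p hp q hq) with e | e
  · left
    refine ⟨f p - t p, fun u hu => mul_left_cancel₀ hd ?_⟩
    have h1 := hs u hu p hp
    have h2 := hs u hu q hq
    have e' : f q = f p - (t p - t q) := by linarith
    rw [e'] at h2
    linarith
  · right
    refine ⟨f p + t p, fun u hu => mul_left_cancel₀ hd ?_⟩
    have h1 := hs u hu p hp
    have h2 := hs u hu q hq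
    have e' : f q = f p + (t p - t q) := by linarith
    rw [e'] at h2
    linarith

theorem line_coord {X : Type} [MetricSpace X] [IsTree X] (L : Set X) {x y : X} (hx : x ∈ L)
    (hy : y ∈ L) (hne : x ≠ y) (h : ∀ a ∈ L, ∀ b ∈ L, ∀ c ∈ L, ∀ m, ¬ Tri m a b c) :
    ∃ t : X → ℝ, ∀ u ∈ L, ∀ v ∈ L, |t u - t v| = dist u v := by
  classical
  have key : ∀ u ∈ L, ∀ v ∈ L, (¬ Btw u x v ∨ u = x ∨ v = x) →
      |dist x u - dist x v| = dist u v := by
    intro u hu v hv hn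
    rcases hn with hn | rfl | rfl
    · obtain ⟨m, m1, m2, m3⟩ := IsTree.ex_med x u v
      by_cases e1 : x = m
      · exact absurd (e1 ▸ m2) hn
      by_cases e2 : u = m
      · subst e2
        exact (seg_eq m3 (bright x v)).symm
      by_cases e3 : v = m
      · subst e3
        exact (seg_eq (bright x u) m1).symm
      exact absurd ⟨e1, e2, e3, m1, m2, m3⟩ (h x hx u hu v hv m)
    · simp
    · simp [dist_comm]
  have mixed : ∀ u v, Btw u x y → ¬ Btw v x y → dist u v = dist x u + dist x v := by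
    intro u v h1 h2
    have h3 := (bsplit h1 v).resolve_right h2
    unfold Q2T1.Btw at h3
    rw [dist_comm x u]; linarith
  refine ⟨fun u => if Btw u x y then -dist x u else dist x u, fun u hu v hv => ?_⟩
  have n1 := dist_nonneg (x := x) (y := u)
  have n2 := dist_nonneg (x := x) (y := v)
  by_cases h1 : Btw u x y <;> by_cases h2 : Btw v x y <;> simp only [h1, h2, if_true, if_false]
  · rw [← key u hu v hv, ← abs_neg]
    · congr 1; ring
    · by_contra hc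
      push Not at hc
      exact h u hu v hv y hy x ⟨hc.2.1, hc.2.2, hne.symm, hc.1, h2, h1⟩
  · rw [mixed u v h1 h2, abs_of_nonpos (by linarith)]; ring
  · rw [dist_comm u v, mixed v u h2 h1, abs_of_nonneg (by linarith)]; ring
  · refine key u hu v hv (Or.inl fun hc => ?_)
    rcases bsplit hc y with h3 | h3
    · exact h1 h3
    · exact h2 (bsymm h3)

variable {G : Type} [Group G] {U : Subgroup G} {X : Type} [MetricSpace X] [MulAction G X]

theorem VS0.exists_bb (h : VS0 U X) : ∃ x, x ∈ BB U X := by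
  have := h.tree
  by_contra hc
  push Not at hc
  obtain ⟨x, y, hx, hy, hne⟩ := h.exists_ll
  obtain ⟨t, ht⟩ := line_coord (LL U X) hx hy hne
    fun a ha b hb c hc' m hm => hc m (bb_of_tri ha hb hc' hm)
  have inj : ∀ u ∈ LL U X, ∀ v ∈ LL U X, t u = t v → u = v := fun u hu v hv e => by
    have := ht u hu v hv
    rw [e, sub_self, abs_zero] at this
    exact dist_eq_zero.1 this.symm
  have hxy : t x ≠ t y := fun e => hne (inj x hx y hy e)
  have tr : ∀ g ∈ U, ∃ c, ∀ u ∈ LL U X, t (g • u) = t u + c := by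
    intro g hg
    rcases real_iso t (fun u => t (g • u)) (LL U X) hx hy hxy (fun u hu v hv => by
      rw [ht _ (h.ll_act g hu) _ (h.ll_act g hv), h.isom g hg, ht u hu v hv]) with h1 | ⟨c, h1⟩
    · exact h1
    exfalso
    have h2 : ∀ u ∈ LL U X, g ^ 2 • u = u := fun u hu => by
      refine inj _ (h.ll_act _ hu) _ hu ?_
      rw [pow_two, mul_smul, h1 _ (h.ll_act g hu), h1 u hu]; ring
    have h3 : g • x = x ∧ g • y = y := by
      by_cases e : g = 1
      · simp [e]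
      have e2 : g ^ 2 ≠ 1 := fun e' => e (h.tf g hg (by rwa [pow_two] at e'))
      exact ⟨h.v2 g hg 2 e2 x y hne (h2 x hx) (h2 y hy),
        h.v2 g hg 2 e2 y x hne.symm (h2 y hy) (h2 x hx)⟩
    have h4 := h1 x hx
    have h5 := h1 y hy
    rw [h3.1] at h4
    rw [h3.2] at h5
    exact hxy (by linarith)
  have cm : ∀ a ∈ U, ∀ b ∈ U, ∀ u ∈ LL U X, (a * b * a⁻¹ * b⁻¹) • u = u := by
    intro a ha b hb u hu
    obtain ⟨c, h1⟩ := tr a ha
    obtain ⟨d, h2⟩ := tr b hb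
    refine inj _ (h.ll_act _ hu) _ hu ?_
    have u1 := h.ll_act b⁻¹ hu
    have u2 := h.ll_act a⁻¹ u1
    have e1 := h2 _ u1
    have e2 := h1 _ u2
    rw [smul_inv_smul] at e1 e2
    rw [mul_smul, mul_smul, mul_smul, h1 _ (h.ll_act b u2), h2 _ u2]
    linarith
  obtain ⟨a, ha, b, hb, c, hc', d, hd, hn⟩ := h.nm
  have mem : ∀ a ∈ U, ∀ b ∈ U, a * b * a⁻¹ * b⁻¹ ∈ U := fun a ha b hb =>
    U.mul_mem (U.mul_mem (U.mul_mem ha hb) (U.inv_mem ha)) (U.inv_mem hb)
  exact hn (h.v1 _ (mem a ha b hb) _ (mem c hc' d hd) x y hne (cm a ha b hb x hx)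
    (cm a ha b hb y hy) (cm c hc' d hd x hx) (cm c hc' d hd y hy))

theorem bb_med [IsTree X] {a b c m : X} (ha : a ∈ BB U X) (hb : b ∈ BB U X) (hc : c ∈ BB U X)
    (m1 : Btw a m b) (m2 : Btw b m c) (m3 : Btw a m c) : m ∈ BB U X := by
  by_cases e1 : a = m
  · exact e1 ▸ ha
  by_cases e2 : b = m
  · exact e2 ▸ hb
  by_cases e3 : c = m
  · exact e3 ▸ hc
  exact bb_of_tri (bb_ll ha) (bb_ll hb) (bb_ll hc) ⟨e1, e2, e3, m1, m2, m3⟩

theorem VS0.ell_bb (h : VS0 U X) {g : G} (hg : g ∈ U) (he : Ell X g) :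
    ∃ m ∈ BB U X, g • m = m := by
  have := h.tree
  have := h.bact
  obtain ⟨x, hx⟩ := h.exists_bb
  obtain ⟨p, hp⟩ := he
  by_cases hfx : g • x = x
  · exact ⟨x, hx, hfx⟩
  have hg1 : g ≠ 1 := by
    rintro rfl
    exact hfx (one_smul _ _)
  have hg2 : g ^ 2 ≠ 1 := fun e' => hg1 (h.tf g hg (by rwa [pow_two] at e'))
  obtain ⟨m, hm, -, m2⟩ := proj_fix (h.iso hg) hp x
  have m3 : Btw (g • x) m (g • g • x) := by
    have := BAct.btw g _ _ _ m2
    rwa [hm] at this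
  refine ⟨m, bb_med hx (h.bb_act g hx) (h.bb_act g (h.bb_act g hx)) m2 m3 ?_, hm⟩
  have hm2 : g ^ 2 • m = m := by rw [pow_two, mul_smul, hm, hm]
  obtain ⟨n, hn, n1, n2⟩ := proj_fix (h.iso (U.pow_mem hg 2)) hm2 x
  by_cases e : n = m
  · rw [e] at n2
    simpa only [pow_two, mul_smul] using n2
  exfalso
  have hn1 : g • n = n := h.v2 g hg 2 hg2 n m e hn hm2
  have n3 : Btw m n (g • x) := by
    have := BAct.btw g _ _ _ n1
    rwa [hm, hn1] at this
  exact e (banti (bsymm (dir_btw m2 n1 e)) n3).symm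

theorem VS0.hyp_bb (h : VS0 U X) {g : G} (hg : g ∈ U) (he : ¬ Ell X g) :
    ∃ m ∈ BB U X, g • m ≠ m ∧ Btw (g⁻¹ • m) m (g • m) := by
  have := h.tree
  obtain ⟨x, hx⟩ := h.exists_bb
  obtain ⟨p, hp, hb⟩ := (h.dich g hg).resolve_left he
  have hi := h.iso hg
  have e0 : dist p (g • p) < dist p (g • g • p) := by
    have h1 := hi.btw hb
    simp only [smul_inv_smul] at h1
    have h2 := h.isom g hg p (g • p)
    have h3 := dist_pos.2 hp.symm
    unfold Q2T1.Btw at h1; linarith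
  have h1 : dist x (g • x) < dist x (g • g • x) := by
    by_contra hc
    obtain ⟨n, hn⟩ := unbdd hi e0 x (dist x (g • x))
    exact absurd (orb_down hi (not_lt.1 hc) n) (not_le.2 hn)
  obtain ⟨c, c1, c2, c3⟩ := IsTree.ex_med x (g • x) (g • g • x)
  obtain ⟨e1, e2⟩ := med_disp hi c1 c2 c3
  rw [abs_of_pos (by linarith)] at e1
  have e3 : dist (g⁻¹ • c) c = dist c (g • c) := by
    rw [← h.isom g hg, smul_inv_smul]
  have e4 : dist x (g⁻¹ • c) = dist (g • x) c := by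
    rw [← h.isom g hg, smul_inv_smul]
  have e5 : dist (g • c) (g • g • x) = dist (g • x) c := by
    rw [h.isom g hg, dist_comm]
  have e6 := dist_triangle4 x (g⁻¹ • c) (g • c) (g • g • x)
  exact ⟨c, bb_med hx (h.bb_act g hx) (h.bb_act g (h.bb_act g hx)) c1 c2 c3,
    fun e => he ⟨c, e⟩, bof (by linarith)⟩

theorem VS0.exists_vs (h : VS0 U X) : ∃ (Y : Type) (_ : MetricSpace Y) (_ : MulAction G Y)
    (i : Y → X), VS U Y ∧ (∀ p q, dist (i p) (i q) = dist p q) ∧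
      (∀ (β : G) p, i (β • p) = β • i p) ∧ ∀ g ∈ U, Ell X g → Ell Y g := by
  have := h.tree
  have := h.bact
  let B : SubMulAction G X := ⟨BB U X, fun β _ hx => h.bb_act β hx⟩
  have ell : ∀ g ∈ U, Ell X g → Ell B g := fun g hg he => by
    obtain ⟨m, hm, e⟩ := h.ell_bb hg he
    exact ⟨⟨m, hm⟩, Subtype.ext e⟩
  obtain ⟨x0, hx0⟩ := h.exists_bb
  refine ⟨B, inferInstance, inferInstance, Subtype.val, ?_, fun _ _ => rfl, fun _ _ => rfl, ell⟩
  refine ⟨⟨fun x y z w => IsTree.four x.1 y.1 z.1 w.1, fun x y z => ?_⟩, ⟨⟨x0, hx0⟩⟩,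
    fun g hg x y => h.isom g hg x.1 y.1, ⟨fun g x y z hb => BAct.btw g x.1 y.1 z.1 hb⟩,
    fun x => ?_, fun x y z hne => ?_, fun g hg => ?_, ?_, ?_, ?_⟩
  · obtain ⟨m, m1, m2, m3⟩ := IsTree.ex_med x.1 y.1 z.1
    exact ⟨⟨m, bb_med x.2 y.2 z.2 m1 m2 m3⟩, m1, m2, m3⟩
  · obtain ⟨a, b, c, ⟨-, -, -, t1, t2, t3⟩, ha, hb, hc⟩ := x.2
    obtain ⟨ga, -, na⟩ := ha.2 x0
    obtain ⟨gb, -, nb⟩ := hb.2 x0
    obtain ⟨gc, -, nc⟩ := hc.2 x0
    have key : ∀ {u v u' v' : X}, Btw u x.1 v → ¬ Btw u x.1 u' → ¬ Btw v x.1 v' →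
        Btw u' x.1 v' := fun h1 h2 h3 =>
      bsymm ((bsplit (bsymm ((bsplit h1 _).resolve_left h2)) _).resolve_left h3)
    have ne : ∀ {u u' : X}, ¬ Btw u x.1 u' → u' ≠ x.1 := fun h1 e => h1 (e ▸ bright _ _)
    exact ⟨⟨ga • x0, h.bb_act ga hx0⟩, ⟨gb • x0, h.bb_act gb hx0⟩, ⟨gc • x0, h.bb_act gc hx0⟩,
      fun e => ne na (congrArg Subtype.val e), fun e => ne nb (congrArg Subtype.val e),
      fun e => ne nc (congrArg Subtype.val e), key t1 na nb, key t2 nb nc, key t3 na nc⟩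
  · exact (full_of_ll (bb_ll y.2) fun e => hne (Subtype.ext e)).2 z.1
  · by_cases he : Ell X g
    · exact Or.inl (ell g hg he)
    · obtain ⟨m, hm, e1, e2⟩ := h.hyp_bb hg he
      exact Or.inr ⟨⟨m, hm⟩, fun e => e1 (congrArg Subtype.val e), e2⟩
  · intro g hg k hk x y hne h1 h2 h3 h4
    exact h.v1 g hg k hk x.1 y.1 (fun e => hne (Subtype.ext e)) (congrArg Subtype.val h1)
      (congrArg Subtype.val h2) (congrArg Subtype.val h3) (congrArg Subtype.val h4)
  · intro g hg r hr x y hne h1 h2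
    exact Subtype.ext (h.v2 g hg r hr x.1 y.1 (fun e => hne (Subtype.ext e))
      (congrArg Subtype.val h1) (congrArg Subtype.val h2))
  · rintro g hg h1 m a b c ⟨t1, t2, t3, t4, t5, t6⟩ ha hb hc
    exact h.v3 g hg h1 m.1 a.1 b.1 c.1 ⟨fun e => t1 (Subtype.ext e), fun e => t2 (Subtype.ext e),
      fun e => t3 (Subtype.ext e), t4, t5, t6⟩ (congrArg Subtype.val ha)
      (congrArg Subtype.val hb) (congrArg Subtype.val hc)

end Pool.Agent.MP_3ce0a0_al.Q2T5
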