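import Pool.Agent.MP_3ce0a0_al.Q2T5.Very
import Pool.Agent.MP_3ce0a0_al.Q2T5.Line
import Pool.Agent.MP_3ce0a0_al.Q2T5.Free

/-!
The limit theorems.
-/

set_option autoImplicit false

namespace Pool.Agent.MP_3ce0a0_al.Q2T5

open Q2T1 Filter Topology

theorem sLimit : SLimit := by
  intro G _ U ω S _ ρ σ A x μ err h
  obtain ⟨X, _, _, lim, hl⟩ := h.exists_lim
  have h0 : VS0 U X := by
    refine ⟨h.nrm, fun g hg e => congrArg Subtype.val (h.tf ⟨g, hg⟩ (Subtype.ext e)), ?_,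
      ⟨A, h.gen⟩, h.tree hl, ⟨lim x⟩, fun g hg => h.isomU hl ⟨g, hg⟩, h.bact hl, h.nofix hl,
      h.dich hl, ?_, ?_, ?_⟩
    · obtain ⟨a, b, c, d, hn⟩ := h.nm
      exact ⟨a, a.2, b, b.2, c, c.2, d, d.2, fun e => hn (Subtype.ext e)⟩
    · intro g hg k hk p q hne h1 h2 h3 h4
      exact congrArg Subtype.val (h.v1 hl ⟨g, hg⟩ ⟨k, hk⟩ p q hne h1 h2 h3 h4)
    · intro g hg r hr p q hne h1 h2
      exact h.v2 hl ⟨g, hg⟩ r (fun e => hr (congrArg Subtype.val e)) p q hne h1 h2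
    · intro g hg h1 m a b c ht ha hb
      exact h.v3 hl ⟨g, hg⟩ (fun e => h1 (congrArg Subtype.val e)) m a b c ht ha hb
  obtain ⟨Y, _, _, i, hY, hd, ha, he⟩ := h0.exists_vs
  refine ⟨Y, inferInstance, inferInstance, hY, fun β hβ p q => ?_, fun g => ?_,
    fun g hg hev p q hp hq => ?_⟩
  · rw [← hd, ha, ha, h.isomG hl β hβ, hd]
  · rw [← h.ell_iff hl g]
    exact ⟨fun ⟨p, hp⟩ => ⟨i p, by rw [← ha, hp]⟩, he g g.2⟩
  · have := h.v4 hl g hg hev (i p) (i q) (by rw [← ha, hp]) (by rw [← ha, hq])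
    rw [← dist_eq_zero, ← hd, this, dist_self]

theorem exists_least {Y ι : Type} [MetricSpace Y] [IsSimp Y] [Nonempty Y] (A : Finset ι)
    (hA : A.Nonempty) (f : ι → Y → Y) :
    ∃ (x : Y) (m : ℝ), (∀ a ∈ A, dist x (f a x) ≤ m) ∧ (∃ a ∈ A, m = dist x (f a x)) ∧
      ∀ y, ∃ a ∈ A, m ≤ dist y (f a y) := by
  classical
  choose n hn using fun y z : Y => IsSimp.int y z
  let F : Y → ℕ := fun y => A.sup fun a => n y (f a y)
  obtain ⟨x, hx⟩ : ∃ x, ∀ y, F x ≤ F y :=
    ⟨Function.argmin F, fun y => Function.argmin_le F y⟩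
  refine ⟨x, F x, fun a ha => ?_, ?_, fun y => ?_⟩
  · rw [hn]
    exact_mod_cast Finset.le_sup (f := fun a => n x (f a x)) ha
  · obtain ⟨a, ha, e⟩ := Finset.exists_mem_eq_sup A hA fun a => n x (f a x)
    exact ⟨a, ha, by rw [hn, ← e]⟩
  · obtain ⟨a, ha, e⟩ := Finset.exists_mem_eq_sup A hA fun a => n y (f a y)
    refine ⟨a, ha, ?_⟩
    rw [hn, ← e]
    exact_mod_cast hx y

theorem free_gen {U : Type} [Group U] {k : ℕ} (hk : 2 ≤ k) (e : U ≃* FreeGroup (Fin k)) :
    ∃ A : Finset U, A.Nonempty ∧ Subgroup.closure (A : Set U) = ⊤ := by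
  classical
  refine ⟨Finset.univ.image fun i => e.symm (FreeGroup.of i),
    ⟨_, Finset.mem_image_of_mem _ (Finset.mem_univ ⟨0, by omega⟩)⟩, ?_⟩
  have h1 := congrArg (Subgroup.map e.symm.toMonoidHom) (FreeGroup.closure_range_of (Fin k))
  rw [MonoidHom.map_closure, Subgroup.map_top_of_surjective _ e.symm.surjective] at h1
  rw [← h1, Finset.coe_image, Finset.coe_univ, Set.image_univ, ← Set.range_comp]
  rfl

theorem sLimitIso : SLimitIso := by
  intro G _ U hU k hk ⟨e⟩ S _ _ _ _ _ hedge hfaith hnofix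
  obtain ⟨A, hA, hgen⟩ := free_gen hk e
  choose x μ h1 h2 h3 using fun j => exists_least A hA fun (a : U) (y : S j) => (a : G) • y
  let ω := hyperfilter ℕ
  have hω : (ω : Filter ℕ) ≤ atTop := Nat.hyperfilter_le_atTop
  have hs : Seq U ω S (fun j => (MulAction.toPermHom G (S j)).comp U.subtype)
      (fun j => MulAction.toPermHom G (S j)) A x μ (fun _ => 0) := by
    refine ⟨hU, free_tf e, free_nm hk e, hgen, fun j => inferInstance,
      fun j g y z => dist_smul (g : G) y z, fun j g y z hne hy hz => ?_, fun g hg => ?_, h1, h3, ?_,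
      by simp, fun β => ⟨1, fun j y z => ?_⟩, fun β => ⟨0, fun j y m z hb => ?_⟩,
      fun g => ⟨0, fun j y => by simp⟩, fun j β g g' hg y => ?_⟩
    · exact Equiv.ext fun w => hedge j g g.2 y z hne hy hz w
    · filter_upwards [hω (hfaith g g.2 fun e => hg (Subtype.ext e))] with j hj
      obtain ⟨w, hw⟩ := hj
      exact fun e => hw (congrArg (fun p : Equiv.Perm (S j) => p w) e)
    · filter_upwards [hω hnofix] with j hj
      obtain ⟨g, hg, hne⟩ := hj (x j)
      by_contra hc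
      have hle : Subgroup.closure (A : Set U) ≤ MulAction.stabilizer U (x j) :=
        (Subgroup.closure_le _).2 fun a ha =>
          (dist_le_zero.1 ((h1 j a ha).trans (not_lt.1 hc))).symm
      rw [hgen] at hle
      exact hne (hle (Subgroup.mem_top (⟨g, hg⟩ : U)))
    · rw [one_mul]; exact (dist_smul β y z).le
    · have := BAct.btw β y m z hb
      unfold Q2T1.Btw at this
      rw [mul_zero, add_zero]; exact this.le
    · show β • (g : G) • y = (g' : G) • β • y
      rw [hg, mul_smul, mul_smul, inv_smul_smul]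
  obtain ⟨X, _, _, hX, hi, he, h4⟩ := sLimit G U ω S _ _ A x μ _ hs
  have : IsIsometricSMul G X :=
    ⟨fun β => Isometry.of_dist_eq (hi β fun j y z => dist_smul β y z)⟩
  refine ⟨X, inferInstance, inferInstance, this, hX, fun g hg hev => ⟨?_, fun hne => ?_⟩⟩
  · refine (he ⟨g, hg⟩).2 fun ε hε => ?_
    filter_upwards [hω hev, hs.pos] with j hj h0
    obtain ⟨y, hy⟩ := hj
    refine ⟨y, ?_⟩
    show dist y (g • y) ≤ _
    rw [hy, dist_self]
    exact (mul_pos hε h0).le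
  · exact h4 ⟨g, hg⟩ (fun e => hne (congrArg Subtype.val e)) (hω hev)

end Pool.Agent.MP_3ce0a0_al.Q2T5
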