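import Pool.Agent.MP_3ce0a0_al.Q2T7.Defs
import Pool.Agent.MP_3ce0a0_al.Q2T4M.Cyc
import Pool.Agent.MP_3ce0a0_al.Q2T4A.Alg

/-! The limit of the twisted Cayley trees from the general limit statement. -/

set_option autoImplicit false

namespace Pool.Agent.MP_3ce0a0_al.Q2T5

open Q2T1 Q2T4M Filter Topology

theorem cyc_eq {k : ℕ} (w : FreeGroup (Fin k)) : Q2T7.cyc w = cl w := by
  obtain ⟨h, hh⟩ := exists_conj_cl w
  refine le_antisymm (Nat.sInf_le ⟨h, hh.symm⟩) (le_csInf ⟨_, h, rfl⟩ ?_)
  rintro _ ⟨u, rfl⟩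
  exact cl_le_conj u w

namespace LimD

theorem not_comm_of {α : Type} {i j : α} (h : i ≠ j) :
    ¬ Commute (FreeGroup.of i) (FreeGroup.of j) := by
  classical
  intro k
  have := congrArg FreeGroup.toWord k.eq
  simp [FreeGroup.toWord_mul, h, h.symm] at this

variable {G : Type} [Group G] {α : Type} (ι : FreeGroup α →* G) (cj : G →* MulAut (FreeGroup α))

/-- The coarse action. -/
def sig (hι : Function.Injective ι) (hc : ∀ b w, ι (cj b w) = b * ι w * b⁻¹) (a : G)
    (u : G → FreeGroup α) (hu : ∀ b, ι (u b) = a * b * a⁻¹ * b⁻¹) :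
    G →* Equiv.Perm (FreeGroup α) :=
  MonoidHom.mk' (fun b => (cj b).toEquiv.trans (Equiv.mulLeft (u b))) fun b c => by
    refine Equiv.ext fun y => hι ?_
    change ι (u (b * c) * cj (b * c) y) = ι (u b * cj b (u c * cj c y))
    simp only [map_mul ι, hc, hu]
    group

end LimD

theorem limD_of (H : SLimit) : Q2T7.LimD := by
  classical
  intro G _ k ι cj hι hc hk a μ ha h1 h2 hμ
  choose u hu using ha
  let e : FreeGroup (Fin k) ≃* ι.range := MonoidHom.ofInjective hι
  have he : ∀ w, ((e w : ι.range) : G) = ι w := fun w => rfl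
  have he' : ∀ g : ι.range, ι (e.symm g) = g := fun g => by rw [← he, e.apply_symm_apply]
  let θ := MonoidHom.id (FreeGroup (Fin k))
  let ρ : ∀ _ : ℕ, ι.range →* Equiv.Perm (Cay θ) := fun j =>
    (MulAction.toPermHom (FreeGroup (Fin k)) (Cay θ)).comp
      ((cj (a j)).toMonoidHom.comp e.symm.toMonoidHom)
  let σ : ∀ _ : ℕ, G →* Equiv.Perm (Cay θ) := fun j => LimD.sig ι cj hι hc (a j) (u j) (hu j)
  have hρ : ∀ j g y, ρ j g y = cj (a j) (e.symm g) • y := fun _ _ _ => rfl
  have hρ' : ∀ j g y, (ρ j g y).el = cj (a j) (e.symm g) * y.el := fun _ _ _ => rfl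
  have hσ : ∀ j b y, (σ j b y).el = u j b * cj b y.el := fun _ _ _ => rfl
  have hω : (hyperfilter ℕ : Filter ℕ) ≤ atTop := Nat.hyperfilter_le_atTop
  have hμ' : Tendsto (fun j => (μ j : ℝ)) (hyperfilter ℕ : Filter ℕ) atTop :=
    (tendsto_natCast_atTop_atTop.comp hμ).mono_left hω
  have hfix : ∀ j g y, ρ j g y = y → g = 1 := fun j g y h => by
    rw [hρ, Cay.smul_eq_iff] at h
    exact e.symm.map_eq_one_iff.mp ((cj (a j)).map_eq_one_iff.mp h)
  have hs : Seq ι.range (hyperfilter ℕ) (fun _ => Cay θ) ρ σ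
      (Finset.univ.image fun i => e (FreeGroup.of i)) (fun _ => Cay.pt θ 1) (fun j => μ j)
      (fun _ => 1) :=
    { nrm := ⟨by
        rintro _ ⟨w, rfl⟩ b
        exact ⟨cj b w, hc b w⟩⟩
      tf := fun g hg => by
        have := congrArg e.symm hg
        rw [map_mul, map_one, ← pow_two, pow_eq_one_iff_left two_ne_zero] at this
        exact e.symm.map_eq_one_iff.mp this
      nm := by
        obtain ⟨x, y, h0⟩ : ∃ x y : FreeGroup (Fin k), ¬ Commute x y :=
          ⟨_, _, LimD.not_comm_of (i := ⟨0, by omega⟩) (j := ⟨1, by omega⟩)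
            fun h => zero_ne_one (congrArg Fin.val h)⟩
        have h3 := Q2T4A.not_comm_commutator fun h => Q2T4A.not_comm_commutator h0 h.symm
        refine ⟨e x, e y, e (x * y * x⁻¹ * y⁻¹), e x, fun h => h3 ?_⟩
        simpa only [map_mul, map_inv, MulEquiv.symm_apply_apply] using h.map e.symm
      gen := by
        rw [Finset.coe_image, Finset.coe_univ, Set.image_univ,
          show (fun i => e (FreeGroup.of i)) = e.toMonoidHom ∘ FreeGroup.of from rfl,
          Set.range_comp, ← MonoidHom.map_closure, FreeGroup.closure_range_of]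
        exact Subgroup.map_top_of_surjective _ e.surjective
      simp := fun _ => inferInstance
      isom := fun j g y z => by rw [hρ, hρ, dist_smul]
      edge := fun j g y z _ h _ => by rw [hfix j g y h, map_one]
      faith := fun g hg => Eventually.of_forall fun j h =>
        hg (hfix j g (Cay.pt θ 1) (by rw [h]; rfl))
      base := fun j b hb => by
        obtain ⟨i, -, rfl⟩ := Finset.mem_image.mp hb
        rw [hρ, e.symm_apply_apply, Cay.dist_one_smul]
        exact Nat.cast_le.mpr (h1 j i)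
      least := fun j y => by
        obtain ⟨i, hi⟩ := h2 j y.el⁻¹
        refine ⟨_, Finset.mem_image_of_mem _ (Finset.mem_univ i), ?_⟩
        rw [inv_inv] at hi
        rw [hρ, e.symm_apply_apply, Cay.dist_smul_self]
        exact Nat.cast_le.mpr hi
      pos := hμ'.eventually_gt_atTop 0
      small := tendsto_const_nhds.div_atTop hμ'
      lip := fun b => by
        obtain ⟨L, hL⟩ := Cay.aff (cj b)
        refine ⟨L, fun j y z => ?_⟩
        rw [Cay.dist_eq, Cay.dist_eq, hσ, hσ]
        exact_mod_cast (hL _ _ _).1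
      btw := fun b => by
        obtain ⟨L, hL⟩ := Cay.aff (cj b)
        refine ⟨2 * (L * L), fun j y m z h => ?_⟩
        simp only [Cay.dist_eq, hσ, mul_one]
        exact_mod_cast (hL _ _ _).2.2 _ ((Cay.btw_iff θ _ _ _).mp h)
      near := fun g => by
        refine ⟨(e.symm g).norm, fun j y => ?_⟩
        have h : (ρ j g y).el = (σ j g y).el * e.symm g := hι (by
          rw [hρ', hσ]
          simp only [map_mul ι, hc, hu, he']
          group)
        rw [Cay.dist_eq, h, dn_mul_right, mul_one]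
      equi := fun j b g g' hg y => hι (by
        change ι (σ j b (ρ j g y)).el = ι (ρ j g' (σ j b y)).el
        rw [hσ, hρ', hρ', hσ]
        simp only [map_mul ι, hc, hu, he', hg]
        group) }
  obtain ⟨X, _, _, hV, -, hE, -⟩ := H G ι.range (hyperfilter ℕ) (fun _ => Cay θ) ρ σ _ _ _ _ hs
  refine ⟨X, _, _, hV, hyperfilter ℕ, hω, fun w => (hE (e w)).trans ?_⟩
  refine forall₂_congr fun ε _ => eventually_congr (Eventually.of_forall fun j => ?_)
  simp only [hρ, e.symm_apply_apply, Cay.dist_smul_self, cyc_eq]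
  constructor
  · rintro ⟨y, hy⟩
    have := cl_le_conj y.el⁻¹ (cj (a j) w)
    rw [inv_inv] at this
    exact (Nat.cast_le.mpr this).trans hy
  · intro h
    obtain ⟨v, hv⟩ := exists_conj_cl (cj (a j) w)
    refine ⟨Cay.pt θ v⁻¹, ?_⟩
    rw [Cay.el_pt, inv_inv]
    exact (Nat.cast_le.mpr hv.le).trans h

end Pool.Agent.MP_3ce0a0_al.Q2T5
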