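import Pool.Agent.MP_3ce0a0_al.Q2T5.Main
import Pool.Agent.MP_3ce0a0_al.Q2T5.LimD

/-!
The limit theorem for sequences of twisted actions on a Cayley tree.
-/

set_option autoImplicit false

namespace Pool.Agent.MP_3ce0a0_al.Q2T5

theorem limD : Q2T7.LimD := limD_of sLimit

end Pool.Agent.MP_3ce0a0_al.Q2T5
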