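import Pool.Agent.MP_3ce0a0_al.Q2T1.Defs

/-!
Elementary facts on tree-spaces and their isometries, used for limit trees.
-/

set_option autoImplicit false

namespace Pool.Agent.MP_3ce0a0_al.Q2T5

open Q2T1

section Basic

variable {X : Type} [MetricSpace X]

theorem bsymm {x y z : X} (h : Btw x y z) : Btw z y x := by
  unfold Q2T1.Btw at *
  rw [dist_comm z y, dist_comm y x, dist_comm z x]; linarith

theorem bleft (x y : X) : Btw x x y := by simp [Q2T1.Btw]

theorem bright (x y : X) : Btw x y y := by simp [Q2T1.Btw]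

theorem bof {x y z : X} (h : dist x y + dist y z ≤ dist x z) : Btw x y z :=
  le_antisymm h (dist_triangle x y z)

theorem banti {x y z : X} (h1 : Btw z x y) (h2 : Btw x y z) : x = y := by
  unfold Q2T1.Btw at *
  have h3 := dist_comm z x
  have h4 := dist_comm z y
  have h5 := dist_nonneg (x := x) (y := y)
  exact dist_le_zero.1 (by linarith)

variable [IsTree X]

theorem four (x y z w : X) : dist x y + dist z w ≤ dist x z + dist y w ∨
    dist x y + dist z w ≤ dist x w + dist y z := le_max_iff.1 (IsTree.four x y z w)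

theorem seg_le {x y p q : X} (hp : Btw x p y) (hq : Btw x q y) :
    dist p q ≤ |dist x p - dist x q| := by
  unfold Q2T1.Btw at *
  have h1 := dist_comm y q
  have h2 := dist_comm y p
  have h3 := le_abs_self (dist x p - dist x q)
  have h4 := neg_abs_le (dist x p - dist x q)
  rcases four x y p q with h | h <;> linarith

theorem seg_eq {x y p q : X} (hp : Btw x p y) (hq : Btw x q y) :
    dist p q = |dist x p - dist x q| := by
  refine le_antisymm (seg_le hp hq) ?_
  have h := abs_dist_sub_le p q x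
  rwa [dist_comm p x, dist_comm q x] at h

theorem uniq {x y p q : X} (hp : Btw x p y) (hq : Btw x q y) (h : dist x p = dist x q) :
    p = q := by
  have h1 := seg_le hp hq
  rw [h, sub_self, abs_zero] at h1
  exact dist_le_zero.1 h1

theorem move {x x' y p : X} (hp : Btw x p y) (h : dist x x' ≤ dist x p) : Btw x' p y := by
  refine bof ?_
  unfold Q2T1.Btw at hp
  have h1 := dist_comm y p
  have h2 := dist_comm y x'
  rcases four x y x' p with h3 | h3
  · have h4 : dist x' p ≤ 0 := by linarith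
    have h5 : x' = p := dist_le_zero.1 h4
    subst h5; simp
  · linarith

theorem move2 {x x' y y' p : X} (hp : Btw x p y) (h : dist x x' ≤ dist x p)
    (h' : dist y y' ≤ dist p y) : Btw x' p y' :=
  bsymm (move (bsymm (move hp h)) (by rwa [dist_comm y p]))

theorem bsplit {a x c : X} (h : Btw a x c) (b : X) : Btw a x b ∨ Btw b x c := by
  unfold Q2T1.Btw at h
  have h1 := dist_comm c b
  have h2 := dist_comm c x
  have h3 := dist_comm b x
  rcases four a c x b with h4 | h4
  · right; refine bof ?_; linarith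
  · left; refine bof ?_; linarith

theorem concat {a b c d : X} (h1 : Btw a b c) (h2 : Btw b c d) (hne : b ≠ c) : Btw a b d := by
  rcases bsplit h1 d with h | h
  · exact h
  · exact absurd (banti h h2) hne

theorem med_uniq {x y z m m' : X} (h1 : Btw x m y) (h2 : Btw y m z) (h3 : Btw x m z)
    (k1 : Btw x m' y) (k2 : Btw y m' z) (k3 : Btw x m' z) : m = m' := by
  refine uniq h1 k1 ?_
  unfold Q2T1.Btw at *
  have e1 := dist_comm y m
  have e2 := dist_comm y m'
  linarith

theorem same {o u v p q : X} (hp : Btw o p u) (hq : Btw o q v) (h : dist o p = dist o q)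
    (hle : 2 * dist o p ≤ dist o u + dist o v - dist u v) : p = q := by
  obtain ⟨c, c1, c2, c3⟩ := IsTree.ex_med o u v
  have e1 := dist_comm u c
  have hc : dist o p ≤ dist o c := by unfold Q2T1.Btw at *; linarith
  have a1 : Btw o p c := by
    refine bof ?_
    have := seg_le hp c1
    rw [abs_of_nonpos (by linarith)] at this
    linarith
  have a2 : Btw o q c := by
    refine bof ?_
    have := seg_le hq c3
    rw [abs_of_nonpos (by linarith)] at this
    linarith
  exact uniq a1 a2 h

end Basic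

section Isom

variable {X : Type} [MetricSpace X]

/-- Distance preserving self-maps. -/
def Iso (f : X → X) : Prop := ∀ y z, dist (f y) (f z) = dist y z

theorem Iso.btw {f : X → X} (hf : Iso f) {x y z : X} (h : Btw x y z) :
    Btw (f x) (f y) (f z) := by
  unfold Q2T1.Btw at *
  rw [hf, hf, hf]; exact h

theorem Iso.iter {f : X → X} (hf : Iso f) (n : ℕ) : Iso f^[n] := by
  induction n with
  | zero => intro y z; rfl
  | succ n ih =>
    intro y z
    rw [Function.iterate_succ_apply', Function.iterate_succ_apply', hf, ih]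

theorem Iso.step {f : X → X} (hf : Iso f) (x : X) (n : ℕ) :
    dist (f x) (f^[n + 1] x) = dist x (f^[n] x) := by
  rw [Function.iterate_succ_apply', hf]

theorem Iso.iter_le {f : X → X} (hf : Iso f) (y : X) (n : ℕ) :
    dist y (f^[n] y) ≤ n * dist y (f y) := by
  induction n with
  | zero => simp
  | succ n ih =>
    have h1 := dist_triangle y (f y) (f^[n + 1] y)
    rw [hf.step] at h1
    push_cast; linarith

variable [IsTree X]

theorem shift {f : X → X} (hf : Iso f) {x y p : X} {δ : ℝ} (hx : dist x (f x) ≤ δ)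
    (hy : dist y (f y) ≤ δ) (hp : Btw x p y) (h1 : δ ≤ dist x p) (h2 : δ ≤ dist p y) :
    Btw x (f p) y ∧ dist x (f p) = dist x p + (dist x (f y) - dist x y) := by
  have hb := hf.btw hp
  have e1 : dist (f x) x ≤ dist (f x) (f p) := by rw [hf, dist_comm]; linarith
  have e2 : dist (f y) y ≤ dist (f p) (f y) := by rw [hf, dist_comm]; linarith
  refine ⟨move2 hb e1 e2, ?_⟩
  have h3 := move hb e1
  unfold Q2T1.Btw at h3 hp
  rw [hf] at h3
  linarith

omit [IsTree X] in
theorem shift_abs {f : X → X} {x y : X} {δ : ℝ} (hy : dist y (f y) ≤ δ) :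
    -δ ≤ dist x (f y) - dist x y ∧ dist x (f y) - dist x y ≤ δ := by
  have h1 := dist_triangle x y (f y)
  have h2 := dist_triangle x (f y) y
  rw [dist_comm (f y) y] at h2
  constructor <;> linarith

theorem shift2 {f g : X → X} (hf : Iso f) (hg : Iso g) {x y p : X} {δ : ℝ}
    (hx : dist x (f x) ≤ δ) (hy : dist y (f y) ≤ δ) (kx : dist x (g x) ≤ δ)
    (ky : dist y (g y) ≤ δ) (hp : Btw x p y) (h1 : 2 * δ ≤ dist x p) (h2 : 2 * δ ≤ dist p y) :
    Btw x (f (g p)) y ∧ dist x (f (g p)) =
      dist x p + (dist x (g y) - dist x y) + (dist x (f y) - dist x y) := by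
  have hδ : 0 ≤ δ := le_trans dist_nonneg hx
  obtain ⟨a1, a2⟩ := shift hg kx ky hp (by linarith) (by linarith)
  obtain ⟨a3, a4⟩ := shift_abs (x := x) ky
  have a5 : δ ≤ dist (g p) y := by unfold Q2T1.Btw at a1 hp; linarith
  obtain ⟨b1, b2⟩ := shift hf hx hy a1 (by linarith) a5
  exact ⟨b1, by rw [b2, a2]⟩

theorem orb_up {f : X → X} (hf : Iso f) {x : X} (h : dist x (f x) < dist x (f (f x))) (n : ℕ) :
    dist x (f^[n + 1] x) + (dist x (f (f x)) - dist x (f x)) ≤ dist x (f^[n + 2] x) := by
  induction n with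
  | zero =>
    show dist x (f x) + _ ≤ dist x (f (f x))
    linarith
  | succ n ih =>
    have e1 : dist (f x) (f^[n + 3] x) = dist x (f^[n + 2] x) := hf.step x (n + 2)
    have e2 : dist (f (f x)) (f^[n + 3] x) = dist x (f^[n + 1] x) := by
      rw [Function.iterate_succ_apply' f (n + 2), hf]; exact hf.step x (n + 1)
    have e3 : dist (f (f x)) (f x) = dist x (f x) := by rw [hf, dist_comm]
    show dist x (f^[n + 2] x) + _ ≤ dist x (f^[n + 3] x)
    rcases four x (f (f x)) (f x) (f^[n + 3] x) with h1 | h1 <;> linarith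

theorem orb_low {f : X → X} (hf : Iso f) {x : X} (h : dist x (f x) < dist x (f (f x))) (n : ℕ) :
    dist x (f x) + n * (dist x (f (f x)) - dist x (f x)) ≤ dist x (f^[n + 1] x) := by
  induction n with
  | zero => simp
  | succ n ih =>
    have := orb_up hf h n
    push_cast; linarith

theorem orb_down {f : X → X} (hf : Iso f) {x : X} (h : dist x (f (f x)) ≤ dist x (f x)) (n : ℕ) :
    dist x (f^[n] x) ≤ dist x (f x) := by
  have key : ∀ n : ℕ, dist x (f^[n] x) ≤ dist x (f x) ∧ dist x (f^[n + 1] x) ≤ dist x (f x) := by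
    intro n
    induction n with
    | zero => exact ⟨by simp, le_rfl⟩
    | succ n ih =>
      refine ⟨ih.2, ?_⟩
      have e1 : dist (f^[n + 2] x) (f x) = dist x (f^[n + 1] x) := by
        rw [dist_comm]; exact hf.step x (n + 1)
      have e2 : dist (f^[n + 2] x) (f (f x)) = dist x (f^[n] x) := by
        rw [Function.iterate_succ_apply' f (n + 1), hf, dist_comm]; exact hf.step x n
      have e3 : dist (f x) (f (f x)) = dist x (f x) := hf _ _
      show dist x (f^[n + 2] x) ≤ _
      rcases four x (f^[n + 2] x) (f x) (f (f x)) with h1 | h1 <;> linarith [ih.1, ih.2]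
  exact (key n).1

theorem unbdd {f : X → X} (hf : Iso f) {p : X} (h : dist p (f p) < dist p (f (f p))) (y : X)
    (C : ℝ) : ∃ n : ℕ, C < dist y (f^[n] y) := by
  obtain ⟨n, hn⟩ := exists_nat_gt ((C + 2 * dist p y) / (dist p (f (f p)) - dist p (f p)))
  rw [div_lt_iff₀ (by linarith)] at hn
  refine ⟨n + 1, ?_⟩
  have h1 := orb_low hf h n
  have h2 := dist_triangle4 p y (f^[n + 1] y) (f^[n + 1] p)
  rw [hf.iter, dist_comm y p] at h2
  have h3 := dist_nonneg (x := p) (y := f p)
  linarith

theorem no_fix {f : X → X} (hf : Iso f) {p : X} (h : dist p (f p) < dist p (f (f p))) (y : X) :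
    f y ≠ y := by
  intro hy
  obtain ⟨n, hn⟩ := unbdd hf h y 0
  rw [Function.iterate_fixed hy] at hn
  simp at hn

theorem tl_lower {f : X → X} (hf : Iso f) (x y : X) :
    dist x (f (f x)) - dist x (f x) ≤ dist y (f y) := by
  by_contra hc
  rw [not_le] at hc
  have h0 := dist_nonneg (x := y) (y := f y)
  have h : dist x (f x) < dist x (f (f x)) := by linarith
  obtain ⟨n, hn⟩ := exists_nat_gt
    ((2 * dist x y + dist y (f y)) / (dist x (f (f x)) - dist x (f x) - dist y (f y)))
  rw [div_lt_iff₀ (by linarith)] at hn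
  have h1 := orb_low hf h n
  have h2 := dist_triangle4 x y (f^[n + 1] y) (f^[n + 1] x)
  rw [hf.iter, dist_comm y x] at h2
  have h3 := hf.iter_le y (n + 1)
  have h4 := dist_nonneg (x := x) (y := f x)
  push_cast at h3
  nlinarith

theorem root_le {f : X → X} (hf : Iso f) {r : ℕ} (hr : r ≠ 0) {p : X}
    (h : dist p (f^[r] p) < dist p (f^[r] (f^[r] p))) (x : X) :
    dist x (f x) ≤ dist x (f^[r] x) := by
  rcases lt_or_ge (dist x (f x)) (dist x (f (f x))) with h1 | h1
  · obtain ⟨n, rfl⟩ := Nat.exists_eq_succ_of_ne_zero hr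
    have h2 := orb_low hf h1 n
    have h3 : (0 : ℝ) ≤ n * (dist x (f (f x)) - dist x (f x)) :=
      mul_nonneg (Nat.cast_nonneg n) (by linarith)
    show _ ≤ dist x (f^[n + 1] x)
    linarith
  · obtain ⟨n, hn⟩ := unbdd (hf.iter r) h x (dist x (f x))
    rw [← Function.iterate_mul] at hn
    exact absurd (orb_down hf h1 _) (not_le.2 hn)

theorem med_disp {f : X → X} (hf : Iso f) {x c : X} (c1 : Btw x c (f x))
    (c2 : Btw (f x) c (f (f x))) (c3 : Btw x c (f (f x))) :
    dist c (f c) = |dist x (f (f x)) - dist x (f x)| ∧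
      2 * dist (f x) c = 2 * dist x (f x) - dist x (f (f x)) := by
  have h1 := seg_eq (hf.btw c1) c2
  have e1 := hf x (f x)
  have e2 := hf x c
  have e3 := dist_comm (f x) c
  have e4 : dist (f x) (f c) - dist (f x) c = dist x (f (f x)) - dist x (f x) := by
    unfold Q2T1.Btw at *; linarith
  rw [e4, dist_comm] at h1
  refine ⟨h1, ?_⟩
  unfold Q2T1.Btw at *; linarith

theorem fix_med {f : X → X} (hf : Iso f) {p x m : X} (hp : f p = p) (c1 : Btw p m x)
    (c3 : Btw p m (f x)) : f m = m := by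
  have h1 := hf.btw c1
  rw [hp] at h1
  refine uniq h1 c3 ?_
  have := hf p m
  rwa [hp] at this

end Isom

section Simp

variable {X : Type} [MetricSpace X] [IsSimp X]

theorem geo_n (n : ℕ) (x y : X) (h : (n : ℝ) ≤ dist x y) : ∃ p, Btw x p y ∧ dist x p = n := by
  induction n with
  | zero => exact ⟨x, bleft x y, by simp⟩
  | succ n ih =>
    push_cast at h
    obtain ⟨p, hp, hd⟩ := ih (by linarith)
    have hne : p ≠ y := by
      rintro rfl
      linarith
    obtain ⟨z, hz, hb⟩ := IsSimp.geo p y hne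
    have h1 := dist_triangle x p z
    have h2 := dist_triangle x z y
    unfold Q2T1.Btw at hp hb
    refine ⟨z, bof (by linarith), ?_⟩
    push_cast; linarith

theorem le_floor {u v : X} {R : ℝ} (h : dist u v ≤ R) : dist u v ≤ (⌊R⌋₊ : ℝ) := by
  obtain ⟨n, hn⟩ := IsSimp.int u v
  rw [hn] at h ⊢
  exact_mod_cast Nat.le_floor h

theorem two_deep (D : ℕ) (x y : X) (h : 2 * (D : ℝ) < dist x y) :
    ∃ p q, p ≠ q ∧ Btw x p y ∧ Btw x q y ∧ (D : ℝ) ≤ dist x p ∧ (D : ℝ) ≤ dist p y ∧
      (D : ℝ) ≤ dist x q ∧ (D : ℝ) ≤ dist q y := by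
  obtain ⟨n, hn⟩ := IsSimp.int x y
  have h1 : 2 * D + 1 ≤ n := by
    rw [hn] at h
    have : 2 * D < n := by exact_mod_cast h
    omega
  have h2 : 2 * (D : ℝ) + 1 ≤ dist x y := by rw [hn]; exact_mod_cast h1
  have h0 : (0 : ℝ) ≤ D := Nat.cast_nonneg D
  obtain ⟨p, hp, dp⟩ := geo_n D x y (by linarith)
  obtain ⟨q, hq, dq⟩ := geo_n (D + 1) x y (by push_cast; linarith)
  push_cast at dq
  refine ⟨p, q, ?_, hp, hq, by linarith, ?_, by linarith, ?_⟩
  · rintro rfl
    linarith
  · unfold Q2T1.Btw at hp; linarith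
  · unfold Q2T1.Btw at hq; linarith

theorem comm_two {f g : X → X} (hf : Iso f) (hg : Iso g) {x y : X} {R : ℝ}
    (hx : dist x (f x) ≤ R) (hy : dist y (f y) ≤ R) (kx : dist x (g x) ≤ R)
    (ky : dist y (g y) ≤ R) (h : 4 * R < dist x y) :
    ∃ p q, p ≠ q ∧ f (g p) = g (f p) ∧ f (g q) = g (f q) := by
  have hR : 0 ≤ R := le_trans dist_nonneg hx
  have hfl := Nat.floor_le hR
  obtain ⟨p, q, hne, hp, hq, p1, p2, q1, q2⟩ := two_deep (2 * ⌊R⌋₊) x y (by push_cast; linarith)
  push_cast at p1 p2 q1 q2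
  have key : ∀ w, Btw x w y → 2 * (⌊R⌋₊ : ℝ) ≤ dist x w → 2 * (⌊R⌋₊ : ℝ) ≤ dist w y →
      f (g w) = g (f w) := by
    intro w hw w1 w2
    obtain ⟨a1, a2⟩ := shift2 hf hg (le_floor hx) (le_floor hy) (le_floor kx) (le_floor ky) hw w1 w2
    obtain ⟨b1, b2⟩ := shift2 hg hf (le_floor kx) (le_floor ky) (le_floor hx) (le_floor hy) hw w1 w2
    exact uniq a1 b1 (by linarith)
  exact ⟨p, q, hne, key p hp p1 p2, key q hq q1 q2⟩

theorem hyp_two {f : X → X} (hf : Iso f) {x y : X} {R : ℝ} (hx : dist x (f x) ≤ R)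
    (hy : dist y (f y) ≤ R) (h : 4 * R < dist x y) :
    (∃ p q, p ≠ q ∧ f p = p ∧ f q = q) ∨ ∃ p, dist p (f p) < dist p (f (f p)) := by
  have hR : 0 ≤ R := le_trans dist_nonneg hx
  have hfl := Nat.floor_le hR
  have h0 : (0 : ℝ) ≤ ⌊R⌋₊ := Nat.cast_nonneg _
  obtain ⟨p, q, hne, hp, hq, p1, p2, q1, q2⟩ := two_deep (2 * ⌊R⌋₊) x y (by push_cast; linarith)
  push_cast at p1 p2 q1 q2
  obtain ⟨a1, a2⟩ := shift hf (le_floor hx) (le_floor hy) hp (by linarith) (by linarith)
  obtain ⟨b1, b2⟩ := shift hf (le_floor hx) (le_floor hy) hq (by linarith) (by linarith)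
  by_cases ht : dist x (f y) - dist x y = 0
  · left
    exact ⟨p, q, hne, uniq a1 hp (by linarith), uniq b1 hq (by linarith)⟩
  · right
    obtain ⟨c1, c2⟩ := shift2 hf hf (le_floor hx) (le_floor hy) (le_floor hx) (le_floor hy) hp p1 p2
    refine ⟨p, ?_⟩
    rw [seg_eq hp a1, seg_eq hp c1, a2, c2]
    rcases lt_or_gt_of_ne ht with h1 | h1
    · rw [abs_of_pos (by linarith), abs_of_pos (by linarith)]; linarith
    · rw [abs_of_neg (by linarith), abs_of_neg (by linarith)]; linarith

theorem mid {f : X → X} (hf : Iso f) (x : X) : ∃ y, dist x y ≤ dist x (f x) ∧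
    (dist y (f y) ≤ max (dist x (f (f x)) - dist x (f x)) 0 ∨ (y ≠ f y ∧ f (f y) = y)) := by
  rcases le_total (dist x (f x)) (dist x (f (f x))) with h | h
  · obtain ⟨c, c1, c2, c3⟩ := IsTree.ex_med x (f x) (f (f x))
    obtain ⟨e1, -⟩ := med_disp hf c1 c2 c3
    refine ⟨c, ?_, Or.inl ?_⟩
    · have := dist_nonneg (x := c) (y := f x)
      unfold Q2T1.Btw at c1; linarith
    · rw [e1, abs_of_nonneg (by linarith)]; exact le_max_left _ _
  · obtain ⟨n, hn⟩ := IsSimp.int x (f x)
    have e1 : dist (f x) (f (f x)) = dist x (f x) := hf _ _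
    have e2 := dist_comm (f x) x
    rcases Nat.even_or_odd' n with ⟨k, hk | hk⟩
    · have hk' : dist x (f x) = 2 * k := by rw [hn, hk]; push_cast; ring
      have h0 : (0 : ℝ) ≤ k := Nat.cast_nonneg k
      obtain ⟨y, hy, dy⟩ := geo_n k x (f x) (by linarith)
      have e3 := hf x y
      have e4 := dist_comm (f x) y
      have hfy : y = f y := by
        refine same (bsymm hy) (hf.btw hy) ?_ ?_ <;> unfold Q2T1.Btw at hy <;> linarith
      refine ⟨y, by linarith, Or.inl ?_⟩
      rw [← hfy, dist_self]; exact le_max_right _ _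
    · have hk' : dist x (f x) = 2 * k + 1 := by rw [hn, hk]; push_cast; ring
      have h0 : (0 : ℝ) ≤ k := Nat.cast_nonneg k
      obtain ⟨y, hy, dy⟩ := geo_n k x (f x) (by linarith)
      obtain ⟨z, hz, dz⟩ := geo_n (k + 1) x (f x) (by push_cast; linarith)
      push_cast at dz
      have e3 := hf x y
      have e4 := dist_comm (f x) y
      have e5 := hf x z
      have e6 := dist_comm (f x) z
      have hb : dist x (f (f x)) ≤ 2 * k := by
        obtain ⟨c, c1, c2, c3⟩ := IsTree.ex_med x (f x) (f (f x))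
        obtain ⟨-, e7⟩ := med_disp hf c1 c2 c3
        obtain ⟨s, hs⟩ := IsSimp.int (f x) c
        obtain ⟨t, ht⟩ := IsSimp.int x (f (f x))
        rw [hs, ht, hk'] at e7
        rw [ht, hk'] at h
        have i1 : 2 * s + t = 2 * (2 * k + 1) := by
          have : (2 * s + t : ℝ) = 2 * (2 * k + 1) := by linarith
          exact_mod_cast this
        have i2 : t ≤ 2 * k + 1 := by exact_mod_cast h
        have i3 : t ≤ 2 * k := by omega
        rw [ht]; exact_mod_cast i3
      have h1 : z = f y := by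
        refine same (bsymm hz) (hf.btw hy) ?_ ?_ <;> unfold Q2T1.Btw at hz <;> linarith
      have h2 : y = f z := by
        refine same (bsymm hy) (hf.btw hz) ?_ ?_ <;> unfold Q2T1.Btw at hy <;> linarith
      refine ⟨y, by linarith, Or.inr ⟨?_, ?_⟩⟩
      · rw [← h1]
        rintro rfl
        linarith
      · rw [← h1, ← h2]

end Simp

end Pool.Agent.MP_3ce0a0_al.Q2T5
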