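import Pool.Agent.MP_3ce0a0_al.Q2T5.Spec
import Pool.Agent.MP_3ce0a0_al.Q2T5.Tree

/-!
From a very small action on a tree-space to the action on the branch points of the minimal part.
-/

set_option autoImplicit false

namespace Pool.Agent.MP_3ce0a0_al.Q2T5

open Q2T1

/-- A very small action without global fixed point. -/
structure VS0 {G : Type} [Group G] (U : Subgroup G) (X : Type) [MetricSpace X] [MulAction G X] :
    Prop where
  nrm : U.Normal
  tf : ∀ g ∈ U, g * g = 1 → g = 1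
  nm : ∃ a ∈ U, ∃ b ∈ U, ∃ c ∈ U, ∃ d ∈ U,
    ¬ Commute (a * b * a⁻¹ * b⁻¹) (c * d * c⁻¹ * d⁻¹)
  fg : ∃ A : Finset U, Subgroup.closure (A : Set U) = ⊤
  tree : IsTree X
  ne : Nonempty X
  isom : ∀ g ∈ U, ∀ x y : X, dist (g • x) (g • y) = dist x y
  bact : BAct G X
  nofix : ∀ x : X, ∃ g ∈ U, g • x ≠ x
  dich : Dich X U
  v1 : ∀ g ∈ U, ∀ h ∈ U, ∀ x y : X, x ≠ y → g • x = x → g • y = y → h • x = x → h • y = y →
    g * h = h * g
  v2 : ∀ g ∈ U, ∀ r : ℕ, g ^ r ≠ 1 → ∀ x y : X, x ≠ y → g ^ r • x = x → g ^ r • y = y → g • x = x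
  v3 : ∀ g ∈ U, g ≠ 1 → ∀ m a b c : X, Tri m a b c → g • a = a → g • b = b → g • c ≠ c

section Helly

variable {X : Type} [MetricSpace X] [IsTree X]

theorem helly {ι : Type} [Nonempty X] (s : Finset ι) (C : ι → Set X) (hC : ∀ i, Conv (C i))
    (h2 : ∀ i ∈ s, ∀ k ∈ s, ∃ x, x ∈ C i ∧ x ∈ C k) : ∃ x, ∀ i ∈ s, x ∈ C i := by
  classical
  induction s using Finset.induction_on generalizing C with
  | empty => exact ⟨Classical.arbitrary X, by simp⟩
  | insert a s _ ih =>
    have ma := Finset.mem_insert_self a s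
    rcases s.eq_empty_or_nonempty with rfl | ⟨b, hb⟩
    · obtain ⟨x, hx, -⟩ := h2 a ma a ma
      exact ⟨x, by simpa using hx⟩
    · obtain ⟨x, hx⟩ := ih (fun i => C i ∩ C a)
        (fun i x hx y hy z hz => ⟨hC i x hx.1 y hy.1 z hz, hC a x hx.2 y hy.2 z hz⟩) (by
          intro i hi k hk
          have mi := Finset.mem_insert_of_mem (b := a) hi
          have mk := Finset.mem_insert_of_mem (b := a) hk
          obtain ⟨p, p1, p2⟩ := h2 i mi k mk
          obtain ⟨q, q1, q2⟩ := h2 k mk a ma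
          obtain ⟨r, r1, r2⟩ := h2 i mi a ma
          obtain ⟨m, m1, m2, m3⟩ := IsTree.ex_med p q r
          exact ⟨m, ⟨hC i p p1 r r1 m m3, hC a q q2 r r2 m m2⟩,
            hC k p p2 q q1 m m1, hC a q q2 r r2 m m2⟩)
      refine ⟨x, fun i hi => ?_⟩
      rcases Finset.mem_insert.1 hi with rfl | hi
      · exact (hx b hb).2
      · exact (hx i hi).1

theorem proj_fix {f : X → X} (hf : Iso f) {p : X} (hp : f p = p) (y : X) :
    ∃ m, f m = m ∧ Btw p m y ∧ Btw y m (f y) := by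
  obtain ⟨m, m1, m2, m3⟩ := IsTree.ex_med p y (f y)
  exact ⟨m, fix_med hf hp m1 m3, m1, m2⟩

theorem dir_btw {x y y' w : X} (h : Btw y x w) (h1 : Btw x y' y) (hne : y' ≠ x) : Btw y' x w := by
  rcases bsplit h y' with h2 | h2
  · exact absurd (banti h2 h1).symm hne
  · exact h2

end Helly

variable {G : Type} [Group G] {U : Subgroup G} {X : Type} [MetricSpace X] [MulAction G X]

omit [MetricSpace X] in
theorem iter_smul (g : G) (n : ℕ) (x : X) : (fun y : X => g • y)^[n] x = g ^ n • x := by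
  induction n with
  | zero => simp
  | succ n ih => rw [Function.iterate_succ_apply', ih, pow_succ', mul_smul]

theorem VS0.iso (h : VS0 U X) {g : G} (hg : g ∈ U) : Iso fun y : X => g • y := h.isom g hg

theorem btw_inv [BAct G X] {g : G} {x y z : X} (h : Btw (g • x) (g • y) (g • z)) : Btw x y z := by
  simpa using BAct.btw g⁻¹ _ _ _ h

theorem VS0.common (h : VS0 U X) {g k : G} (hg : g ∈ U) (hk : k ∈ U) (eg : Ell X g)
    (ek : Ell X k) (e : Ell X (g * k)) : ∃ x : X, g • x = x ∧ k • x = x := by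
  have := h.tree
  have := h.bact
  obtain ⟨x, hx⟩ := eg
  obtain ⟨y, hy⟩ := ek
  obtain ⟨w, hw⟩ := e
  obtain ⟨x', a1, -, a3⟩ := proj_fix (h.iso hg) hx y
  obtain ⟨y', b1, b2, b3⟩ := proj_fix (h.iso hk) hy x'
  by_cases hne : y' = x'
  · exact ⟨x', a1, hne ▸ b1⟩
  exfalso
  have c1 : Btw y' x' (g • y) := dir_btw a3 (bsymm b2) hne
  have c2 : Btw x' (g • y') (g • y) := by
    have := BAct.btw g _ _ _ (bsymm b2)
    rwa [a1] at this
  have c3 : g • y' ≠ x' := fun e => hne (by rw [← a1] at e; exact smul_left_cancel g e)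
  have c4 : Btw y' x' (g • y') := bsymm (dir_btw (bsymm c1) c2 c3)
  have c5 : Btw y' x' (g⁻¹ • y') := by
    refine btw_inv (g := g) ?_
    rw [a1, smul_inv_smul]; exact bsymm c4
  have c6 : Btw y' (k • x') (k • g • y') := by
    have := BAct.btw k _ _ _ c4
    rwa [b1] at this
  have c7 : k • x' ≠ y' := fun e => hne (by rw [← b1] at e; exact (smul_left_cancel k e).symm)
  have c8 : Btw x' y' (k • g • y') := concat b3 c6 c7.symm
  have c9 : Btw (k • g • y') y' (g⁻¹ • y') := concat (bsymm c8) c5 hne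
  have d1 : dist (g • k • g • y') y' = dist (k • g • y') (g⁻¹ • y') := by
    rw [← h.isom g hg (k • g • y') (g⁻¹ • y'), smul_inv_smul]
  have d2 : dist (k • g • y') y' = dist (g • y') y' := by
    rw [← h.isom k hk (g • y') y', b1]
  have d3 : 0 < dist y' (g⁻¹ • y') := by
    have := dist_pos.2 hne
    have := dist_nonneg (x := x') (y := g⁻¹ • y')
    unfold Q2T1.Btw at c5; linarith
  refine no_fix (h.iso (U.mul_mem hg hk)) (p := y') ?_ w hw
  simp only [mul_smul, b1]
  rw [dist_comm y' (g • y'), dist_comm y' (g • k • g • y')]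
  unfold Q2T1.Btw at c9; linarith

theorem VS0.exists_hyp (h : VS0 U X) : ∃ g ∈ U, Hyp X g := by
  have := h.tree
  have := h.ne
  by_contra hc
  push Not at hc
  have he : ∀ g ∈ U, Ell X g := fun g hg => (h.dich g hg).resolve_right (hc g hg)
  obtain ⟨A, hA⟩ := h.fg
  obtain ⟨x, hx⟩ := helly A (fun a : U => {x : X | (a : G) • x = x}) (by
    intro a x hx y hy z hz
    have h1 := (h.iso a.2).btw hz
    simp only [Set.mem_ofPred_eq] at hx hy
    simp only [hx, hy] at h1
    refine uniq h1 hz ?_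
    have := h.isom a a.2 x z
    rwa [hx] at this) (fun a _ b _ =>
      h.common a.2 b.2 (he _ a.2) (he _ b.2) (he _ (U.mul_mem a.2 b.2)))
  obtain ⟨g, hg, hne⟩ := h.nofix x
  have hle : Subgroup.closure (A : Set U) ≤ MulAction.stabilizer U x :=
    (Subgroup.closure_le _).2 fun a ha => hx a ha
  rw [hA] at hle
  exact hne (hle (Subgroup.mem_top (⟨g, hg⟩ : U)))

/-- The direction of `y` at `x` meets every orbit. -/
def Full (U : Subgroup G) (x y : X) : Prop := y ≠ x ∧ ∀ z : X, ∃ g ∈ U, ¬ Btw y x (g • z)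

/-- Points with two such directions. -/
def LL (U : Subgroup G) (X : Type) [MetricSpace X] [MulAction G X] : Set X :=
  {c | ∃ y z, Full U c y ∧ Full U c z ∧ Btw y c z}

/-- Points with three such directions. -/
def BB (U : Subgroup G) (X : Type) [MetricSpace X] [MulAction G X] : Set X :=
  {x | ∃ a b c, Tri x a b c ∧ Full U x a ∧ Full U x b ∧ Full U x c}

theorem bb_ll {x : X} (h : x ∈ BB U X) : x ∈ LL U X := by
  obtain ⟨a, b, c, ht, ha, hb, -⟩ := h
  exact ⟨a, b, ha, hb, ht.2.2.2.1⟩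

theorem VS0.full_act (h : VS0 U X) (β : G) {x y : X} (hf : Full U x y) :
    Full U (β • x) (β • y) := by
  have := h.bact
  refine ⟨fun e => hf.1 (smul_left_cancel β e), fun z => ?_⟩
  obtain ⟨g, hg, hn⟩ := hf.2 (β⁻¹ • z)
  refine ⟨β * g * β⁻¹, h.nrm.conj_mem g hg β, fun hb => hn (btw_inv (g := β) ?_)⟩
  rwa [mul_smul, mul_smul] at hb

theorem VS0.ll_act (h : VS0 U X) (β : G) {x : X} (hx : x ∈ LL U X) : β • x ∈ LL U X := by
  have := h.bact
  obtain ⟨y, z, hy, hz, hb⟩ := hx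
  exact ⟨β • y, β • z, h.full_act β hy, h.full_act β hz, BAct.btw β _ _ _ hb⟩

theorem VS0.bb_act (h : VS0 U X) (β : G) {x : X} (hx : x ∈ BB U X) : β • x ∈ BB U X := by
  have := h.bact
  obtain ⟨a, b, c, ⟨-, -, -, t1, t2, t3⟩, ha, hb, hc⟩ := hx
  have ha' := h.full_act β ha
  have hb' := h.full_act β hb
  have hc' := h.full_act β hc
  exact ⟨β • a, β • b, β • c, ⟨ha'.1, hb'.1, hc'.1, BAct.btw β _ _ _ t1, BAct.btw β _ _ _ t2,
    BAct.btw β _ _ _ t3⟩, ha', hb', hc'⟩

theorem full_of_ll [IsTree X] {c m : X} (hc : c ∈ LL U X) (hne : c ≠ m) : Full U m c := by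
  have key : ∀ y, Full U c y → Btw y c m → Full U m c := by
    intro y hy hb
    refine ⟨hne, fun z => ?_⟩
    obtain ⟨g, hg, hn⟩ := hy.2 z
    exact ⟨g, hg, fun hb2 => hne (banti ((bsplit hb (g • z)).resolve_left hn) hb2)⟩
  obtain ⟨y, z, hy, hz, hb⟩ := hc
  rcases bsplit hb m with h1 | h1
  · exact key y hy h1
  · exact key z hz (bsymm h1)

theorem bb_of_tri [IsTree X] {m a b c : X} (ha : a ∈ LL U X) (hb : b ∈ LL U X) (hc : c ∈ LL U X)
    (ht : Tri m a b c) : m ∈ BB U X :=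
  ⟨a, b, c, ht, full_of_ll ha ht.1, full_of_ll hb ht.2.1, full_of_ll hc ht.2.2.1⟩

theorem VS0.full_hyp (h : VS0 U X) {g : G} (hg : g ∈ U) {x : X} (hne : g • x ≠ x)
    (hb : Btw (g⁻¹ • x) x (g • x)) : Full U x (g • x) := by
  have := h.tree
  refine ⟨hne, fun z => ?_⟩
  have hi := h.iso hg
  have hl : 0 < dist x (g • x) := dist_pos.2 hne.symm
  have e1 : dist x (g • g • x) = 2 * dist x (g • x) := by
    have h1 := hi.btw hb
    simp only [smul_inv_smul] at h1
    have h2 := h.isom g hg x (g • x)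
    unfold Q2T1.Btw at h1; linarith
  obtain ⟨n, hn⟩ := exists_nat_gt (dist z x / dist x (g • x))
  rw [div_lt_iff₀ hl] at hn
  have h1 := orb_low hi (x := x) (by show dist x (g • x) < dist x (g • g • x); linarith) n
  have h2 := hi.step x n
  have h3 := hi.iter_le x n
  simp only [iter_smul, e1] at h1 h2 h3
  refine ⟨g ^ (n + 1), U.pow_mem hg _, fun hc => ?_⟩
  have h4 : Btw x (g • x) (g ^ (n + 1) • x) := bof (by linarith)
  have h5 := concat (bsymm hc) h4 hne.symm
  have h6 := h.isom _ (U.pow_mem hg (n + 1)) z x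
  have h7 := dist_nonneg (x := g ^ (n + 1) • z) (y := x)
  unfold Q2T1.Btw at h5; linarith

theorem VS0.exists_ll (h : VS0 U X) : ∃ x y, x ∈ LL U X ∧ y ∈ LL U X ∧ x ≠ y := by
  obtain ⟨g, hg, x, hne, hb⟩ := h.exists_hyp
  have hx : x ∈ LL U X := by
    refine ⟨g⁻¹ • x, g • x, h.full_hyp (U.inv_mem hg) ?_ ?_, h.full_hyp hg hne hb, hb⟩
    · intro e
      exact hne (by rw [inv_smul_eq_iff] at e; exact e.symm)
    · rw [inv_inv]; exact bsymm hb
  exact ⟨x, g • x, hx, h.ll_act g hx, hne.symm⟩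

end Pool.Agent.MP_3ce0a0_al.Q2T5
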