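import Mathlib

/-!
Ultralimits of rescaled pointed metric spaces with a uniformly Lipschitz group action.
-/

set_option autoImplicit false

namespace Pool.Agent.MP_3ce0a0_al.Q2T5

open Filter Topology

variable (ω : Ultrafilter ℕ) {S : ℕ → Type} [∀ j, MetricSpace (S j)] (x : ∀ j, S j) (μ : ℕ → ℝ)

/-- Sequences at bounded rescaled distance from the base points. -/
def Bd (y : ∀ j, S j) : Prop := ∃ C : ℝ, ∀ᶠ j in ω, dist (x j) (y j) ≤ C * μ j

theorem bd_base : Bd ω x μ x := ⟨0, Eventually.of_forall fun j => by simp⟩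

/-- The space of such sequences. -/
structure Pre where
  val : ∀ j, S j
  bd : Bd ω x μ val

variable {ω x μ}

theorem Pre.ext' {y z : Pre ω x μ} (h : y.val = z.val) : y = z := by
  cases y; cases z; cases h; rfl

theorem ulim_ex {f : ℕ → ℝ} {C : ℝ} (h : ∀ᶠ j in ω, f j ∈ Set.Icc 0 C) :
    Tendsto f ω (𝓝 (limUnder (ω : Filter ℕ) f)) := by
  have h1 : (↑(ω.map f) : Filter ℝ) ≤ 𝓟 (Set.Icc 0 C) := by
    rw [Ultrafilter.coe_map, le_principal_iff, mem_map]; exact h
  obtain ⟨l, -, hl⟩ := isCompact_Icc.ultrafilter_le_nhds (ω.map f) h1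
  exact tendsto_nhds_limUnder ⟨l, hl⟩

theorem Bd.tend (hpos : ∀ᶠ j in ω, 0 < μ j) {y z : ∀ j, S j} (hy : Bd ω x μ y)
    (hz : Bd ω x μ z) : Tendsto (fun j => dist (y j) (z j) / μ j) ω
      (𝓝 (limUnder (ω : Filter ℕ) fun j => dist (y j) (z j) / μ j)) := by
  obtain ⟨C, hC⟩ := hy
  obtain ⟨D, hD⟩ := hz
  refine ulim_ex (C := C + D) ?_
  filter_upwards [hpos, hC, hD] with j h0 h1 h2
  refine ⟨div_nonneg dist_nonneg h0.le, ?_⟩
  rw [div_le_iff₀ h0]
  have h3 := dist_triangle_left (y j) (z j) (x j)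
  linarith

theorem Bd.near {y z : ∀ j, S j} (hy : Bd ω x μ y) {C : ℝ}
    (h : ∀ᶠ j in ω, dist (y j) (z j) ≤ C * μ j) : Bd ω x μ z := by
  obtain ⟨D, hD⟩ := hy
  refine ⟨D + C, ?_⟩
  filter_upwards [h, hD] with j h1 h2
  have h3 := dist_triangle (x j) (y j) (z j)
  linarith

theorem Bd.map {y : ∀ j, S j} (hy : Bd ω x μ y) {f : ∀ j, S j → S j} {L : ℝ}
    (hL : ∀ j u v, dist (f j u) (f j v) ≤ L * dist u v) (hb : Bd ω x μ fun j => f j (x j)) :
    Bd ω x μ fun j => f j (y j) := by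
  obtain ⟨D, hD⟩ := hy
  refine hb.near (C := |L| * D) ?_
  filter_upwards [hD] with j h1
  have h2 := hL j (x j) (y j)
  have h3 : L * dist (x j) (y j) ≤ |L| * dist (x j) (y j) :=
    mul_le_mul_of_nonneg_right (le_abs_self L) dist_nonneg
  have h4 := mul_le_mul_of_nonneg_left h1 (abs_nonneg L)
  rw [mul_assoc]; linarith

theorem exists_ultra {G : Type} [Group G] (hpos : ∀ᶠ j in ω, 0 < μ j)
    (σ : ∀ j, G →* Equiv.Perm (S j))
    (hlip : ∀ β : G, ∃ L : ℝ, ∀ j y z, dist (σ j β y) (σ j β z) ≤ L * dist y z)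
    (hb : ∀ β : G, Bd ω x μ fun j => σ j β (x j)) :
    ∃ (X : Type) (_ : MetricSpace X) (_ : MulAction G X) (lim : (∀ j, S j) → X),
      (∀ y z, Bd ω x μ y → Bd ω x μ z →
        Tendsto (fun j => dist (y j) (z j) / μ j) ω (𝓝 (dist (lim y) (lim z)))) ∧
      (∀ p, ∃ y, Bd ω x μ y ∧ lim y = p) ∧
      ∀ (β : G) y, Bd ω x μ y → lim (fun j => σ j β (y j)) = β • lim y := by
  classical
  have hact : ∀ (β : G) y, Bd ω x μ y → Bd ω x μ fun j => σ j β (y j) := by
    intro β y hy
    obtain ⟨L, hL⟩ := hlip β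
    exact hy.map (f := fun j u => σ j β u) hL (hb β)
  let P := Pre ω x μ
  let _ : PseudoMetricSpace P :=
    { dist := fun y z => limUnder (ω : Filter ℕ) fun j => dist (y.1 j) (z.1 j) / μ j
      dist_self := fun y => by
        have h := Bd.tend hpos y.2 y.2
        refine tendsto_nhds_unique h ?_
        simp
      dist_comm := fun y z => by simp only [dist_comm]
      dist_triangle := fun y z w => by
        refine le_of_tendsto_of_tendsto (Bd.tend hpos y.2 w.2)
          ((Bd.tend hpos y.2 z.2).add (Bd.tend hpos z.2 w.2)) ?_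
        filter_upwards [hpos] with j h0
        rw [← add_div]
        exact div_le_div_of_nonneg_right (dist_triangle _ _ _) h0.le }
  have hd : ∀ y z : P, Tendsto (fun j => dist (y.1 j) (z.1 j) / μ j) ω (𝓝 (dist y z)) :=
    fun y z => Bd.tend hpos y.2 z.2
  let _ : MulAction G P :=
    { smul := fun β y => ⟨fun j => σ j β (y.1 j), hact β y.1 y.2⟩
      one_smul := fun y => Pre.ext' (funext fun j => by
        show σ j 1 (y.1 j) = y.1 j
        simp)
      mul_smul := fun β γ y => Pre.ext' (funext fun j => by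
        show σ j (β * γ) (y.1 j) = σ j β (σ j γ (y.1 j))
        simp) }
  have : ContinuousConstSMul G P := ⟨fun β => by
    obtain ⟨L, hL⟩ := hlip β
    refine (LipschitzWith.of_dist_le' (f := fun y : P => β • y) (K := L) fun y z => ?_).continuous
    refine le_of_tendsto_of_tendsto (hd (β • y) (β • z)) ((hd y z).const_mul L) ?_
    filter_upwards [hpos] with j h0
    rw [← mul_div_assoc]
    exact div_le_div_of_nonneg_right (hL j _ _) h0.le⟩
  refine ⟨SeparationQuotient P, inferInstance, inferInstance, fun y =>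
    if h : Bd ω x μ y then SeparationQuotient.mk ⟨y, h⟩
    else SeparationQuotient.mk ⟨x, bd_base ω x μ⟩, ?_, ?_, ?_⟩
  · intro y z hy hz
    simp only [dif_pos hy, dif_pos hz, SeparationQuotient.dist_mk]
    exact hd ⟨y, hy⟩ ⟨z, hz⟩
  · intro p
    obtain ⟨y, rfl⟩ := SeparationQuotient.surjective_mk p
    exact ⟨y.1, y.2, by simp only [dif_pos y.2]; rfl⟩
  · intro β y hy
    simp only [dif_pos hy, dif_pos (hact β y hy)]
    rw [← SeparationQuotient.mk_smul]
    rfl

end Pool.Agent.MP_3ce0a0_al.Q2T5
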