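import Pool.Agent.MP_3ce0a0_al.Q2T5.Spec
import Pool.Agent.MP_3ce0a0_al.Q2T5.Tree
import Pool.Agent.MP_3ce0a0_al.Q2T5.Ultra

/-!
The ultralimit of a sequence of actions on simplicial trees: basic transfer.
-/

set_option autoImplicit false

namespace Pool.Agent.MP_3ce0a0_al.Q2T5

open Q2T1 Filter Topology

/-- The rescaled sequence `f j / μ j` tends to `a`. -/
def Tn (ω : Ultrafilter ℕ) (μ f : ℕ → ℝ) (a : ℝ) : Prop :=
  Tendsto (fun j => f j / μ j) ω (𝓝 a)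

section Tn

variable {ω : Ultrafilter ℕ} {μ f g : ℕ → ℝ} {a b : ℝ}

theorem Tn.add (hf : Tn ω μ f a) (hg : Tn ω μ g b) : Tn ω μ (fun j => f j + g j) (a + b) := by
  unfold Tn at *
  simpa only [add_div] using Tendsto.add hf hg

theorem Tn.sub (hf : Tn ω μ f a) (hg : Tn ω μ g b) : Tn ω μ (fun j => f j - g j) (a - b) := by
  unfold Tn at *
  simpa only [sub_div] using Tendsto.sub hf hg

theorem Tn.mul (hf : Tn ω μ f a) (c : ℝ) : Tn ω μ (fun j => c * f j) (c * a) := by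
  unfold Tn at *
  simpa only [mul_div_assoc] using Tendsto.const_mul c hf

theorem Tn.le (hpos : ∀ᶠ j in ω, 0 < μ j) (hf : Tn ω μ f a) (hg : Tn ω μ g b)
    (h : ∀ᶠ j in ω, f j ≤ g j) : a ≤ b := by
  refine le_of_tendsto_of_tendsto hf hg ?_
  filter_upwards [hpos, h] with j h0 h1
  exact div_le_div_of_nonneg_right h1 h0.le

theorem Tn.lt (hpos : ∀ᶠ j in ω, 0 < μ j) (hf : Tn ω μ f a) (hg : Tn ω μ g b) (h : a < b) :
    ∀ᶠ j in ω, f j < g j := by
  filter_upwards [hpos, Tendsto.eventually_lt hf hg h] with j h0 h1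
  exact (div_lt_div_iff_of_pos_right h0).1 h1

theorem tn_mu (hpos : ∀ᶠ j in ω, 0 < μ j) (c : ℝ) : Tn ω μ (fun j => c * μ j) c := by
  refine Tendsto.congr' ?_ tendsto_const_nhds
  filter_upwards [hpos] with j h0
  field_simp

end Tn

variable {G : Type} [Group G] {U : Subgroup G} {ω : Ultrafilter ℕ} {S : ℕ → Type}
  [∀ j, MetricSpace (S j)] {ρ : ∀ j, U →* Equiv.Perm (S j)} {σ : ∀ j, G →* Equiv.Perm (S j)}
  {A : Finset U} {x : ∀ j, S j} {μ err : ℕ → ℝ}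

theorem Seq.iso (h : Seq U ω S ρ σ A x μ err) (j : ℕ) (g : U) : Iso (ρ j g) := h.isom j g

theorem Seq.word (h : Seq U ω S ρ σ A x μ err) (g : U) : ∃ C : ℝ, 0 ≤ C ∧ ∀ j y (R : ℝ), 0 ≤ R →
    (∀ a ∈ A, dist y (ρ j a y) ≤ R) → dist y (ρ j g y) ≤ C * R := by
  have hg : g ∈ Subgroup.closure (A : Set U) := by rw [h.gen]; trivial
  induction hg using Subgroup.closure_induction with
  | mem a ha => exact ⟨1, zero_le_one, fun j y R _ hy => by rw [one_mul]; exact hy a ha⟩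
  | one => exact ⟨0, le_rfl, fun j y R _ _ => by simp⟩
  | mul a b _ _ iha ihb =>
    obtain ⟨C, hC, ha⟩ := iha
    obtain ⟨D, hD, hb⟩ := ihb
    refine ⟨C + D, by linarith, fun j y R hR hy => ?_⟩
    have h1 := dist_triangle y (ρ j a y) (ρ j a (ρ j b y))
    rw [h.isom] at h1
    have h2 := ha j y R hR hy
    have h3 := hb j y R hR hy
    rw [map_mul, Equiv.Perm.mul_apply]; linarith
  | inv a _ iha =>
    obtain ⟨C, hC, ha⟩ := iha
    refine ⟨C, hC, fun j y R hR hy => ?_⟩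
    rw [← h.isom j a, ← Equiv.Perm.mul_apply, ← map_mul, mul_inv_cancel, map_one,
      Equiv.Perm.one_apply, dist_comm]
    exact ha j y R hR hy

theorem Seq.comm_at (h : Seq U ω S ρ σ A x μ err) {j : ℕ} {g k : U}
    (hne : ρ j ((k * g)⁻¹ * (g * k)) ≠ 1) {y z : S j} {R : ℝ} (h1 : dist y (ρ j g y) ≤ R)
    (h2 : dist z (ρ j g z) ≤ R) (h3 : dist y (ρ j k y) ≤ R) (h4 : dist z (ρ j k z) ≤ R) :
    dist y z ≤ 4 * R := by
  have := h.simp j
  by_contra hc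
  obtain ⟨p, q, hpq, hp, hq⟩ := comm_two (h.iso j g) (h.iso j k) h1 h2 h3 h4 (not_le.1 hc)
  have key : ∀ w, ρ j g (ρ j k w) = ρ j k (ρ j g w) → ρ j ((k * g)⁻¹ * (g * k)) w = w := by
    intro w hw
    rw [map_mul, map_mul, Equiv.Perm.mul_apply, Equiv.Perm.mul_apply, hw, map_inv,
      Equiv.Perm.inv_eq_iff_eq, map_mul, Equiv.Perm.mul_apply]
  exact hne (h.edge j _ p q hpq (key p hp) (key q hq))

theorem Seq.far (h : Seq U ω S ρ σ A x μ err) : ∃ K : ℝ, ∀ᶠ j in ω, ∀ y (R : ℝ), μ j ≤ R →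
    (∀ a ∈ A, dist y (ρ j a y) ≤ R) → dist (x j) y ≤ K * R := by
  obtain ⟨a, b, c, d, hn⟩ := h.nm
  generalize a * b * a⁻¹ * b⁻¹ = g at hn
  generalize c * d * c⁻¹ * d⁻¹ = k at hn
  have hw : (k * g)⁻¹ * (g * k) ≠ 1 := fun e => hn (inv_mul_eq_one.1 e).symm
  obtain ⟨C, hC, hg⟩ := h.word g
  obtain ⟨D, hD, hk⟩ := h.word k
  refine ⟨4 * (C + D), ?_⟩
  filter_upwards [h.pos, h.faith _ hw] with j h0 hne y R hR hy
  have hR0 : 0 ≤ R := by linarith
  have hx : ∀ a ∈ A, dist (x j) (ρ j a (x j)) ≤ R := fun a ha => (h.base j a ha).trans hR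
  have e1 := mul_nonneg hC hR0
  have e2 := mul_nonneg hD hR0
  have := h.comm_at hne (y := x j) (z := y) (R := (C + D) * R)
    (by have := hg j _ R hR0 hx; linarith) (by have := hg j _ R hR0 hy; linarith)
    (by have := hk j _ R hR0 hx; linarith) (by have := hk j _ R hR0 hy; linarith)
  linarith

theorem Seq.bd_rho0 (h : Seq U ω S ρ σ A x μ err) (g : U) :
    Bd ω x μ fun j => ρ j g (x j) := by
  obtain ⟨C, -, hC⟩ := h.word g
  refine ⟨C, ?_⟩
  filter_upwards [h.pos] with j h0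
  exact hC j _ _ h0.le (h.base j)

theorem Seq.bd_rho (h : Seq U ω S ρ σ A x μ err) (g : U) {y : ∀ j, S j} (hy : Bd ω x μ y) :
    Bd ω x μ fun j => ρ j g (y j) :=
  hy.map (f := fun j u => ρ j g u) (L := 1) (fun j u v => by rw [h.isom, one_mul]) (h.bd_rho0 g)

theorem Seq.bd_sigma0 (h : Seq U ω S ρ σ A x μ err) (β : G) :
    Bd ω x μ fun j => σ j β (x j) := by
  obtain ⟨K, hK⟩ := h.far
  obtain ⟨L, hL⟩ := h.lip β
  choose C hC0 hC using h.word
  let c : U → U := fun a => ⟨β⁻¹ * a * β, by simpa using h.nrm.conj_mem _ a.2 β⁻¹⟩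
  have hM : 0 ≤ ∑ a ∈ A, C (c a) := Finset.sum_nonneg fun a _ => hC0 _
  refine ⟨K * (|L| * ∑ a ∈ A, C (c a) + 1), ?_⟩
  filter_upwards [h.pos, hK] with j h0 hj
  have hp := mul_nonneg (mul_nonneg (abs_nonneg L) hM) h0.le
  rw [mul_assoc]
  refine hj _ _ (by linarith) fun a ha => ?_
  rw [← h.equi j β (c a) a (by simp [c, mul_assoc])]
  have h1 := hL j (x j) (ρ j (c a) (x j))
  have h2 := hC (c a) j _ _ h0.le (h.base j)
  have h3 : C (c a) ≤ ∑ a ∈ A, C (c a) :=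
    Finset.single_le_sum (f := fun a => C (c a)) (fun a _ => hC0 _) ha
  have h4 : L * dist (x j) (ρ j (c a) (x j)) ≤ |L| * dist (x j) (ρ j (c a) (x j)) :=
    mul_le_mul_of_nonneg_right (le_abs_self L) dist_nonneg
  have h5 := mul_le_mul_of_nonneg_left (h2.trans (mul_le_mul_of_nonneg_right h3 h0.le))
    (abs_nonneg L)
  linarith

theorem Seq.bd_sigma (h : Seq U ω S ρ σ A x μ err) (β : G) {y : ∀ j, S j} (hy : Bd ω x μ y) :
    Bd ω x μ fun j => σ j β (y j) := by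
  obtain ⟨L, hL⟩ := h.lip β
  exact hy.map (f := fun j u => σ j β u) hL (h.bd_sigma0 β)

/-- The limit map. -/
structure IsLim (ω : Ultrafilter ℕ) (σ : ∀ j, G →* Equiv.Perm (S j)) (x : ∀ j, S j) (μ : ℕ → ℝ)
    {X : Type} [MetricSpace X] [MulAction G X] (lim : (∀ j, S j) → X) : Prop where
  tend : ∀ y z, Bd ω x μ y → Bd ω x μ z →
    Tn ω μ (fun j => dist (y j) (z j)) (dist (lim y) (lim z))
  surj : ∀ p, ∃ y, Bd ω x μ y ∧ lim y = p
  act : ∀ (β : G) y, Bd ω x μ y → lim (fun j => σ j β (y j)) = β • lim y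

theorem Seq.exists_lim (h : Seq U ω S ρ σ A x μ err) :
    ∃ (X : Type) (_ : MetricSpace X) (_ : MulAction G X) (lim : (∀ j, S j) → X),
      IsLim ω σ x μ lim := by
  obtain ⟨X, i1, i2, lim, h1, h2, h3⟩ := exists_ultra h.pos σ h.lip h.bd_sigma0
  exact ⟨X, i1, i2, lim, h1, h2, h3⟩

variable {X : Type} [MetricSpace X] [MulAction G X] {lim : (∀ j, S j) → X}

theorem Seq.rho_lim (h : Seq U ω S ρ σ A x μ err) (hl : IsLim ω σ x μ lim) (g : U)
    {y : ∀ j, S j} (hy : Bd ω x μ y) : lim (fun j => ρ j g (y j)) = (g : G) • lim y := by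
  rw [← hl.act g y hy]
  obtain ⟨L, hL⟩ := h.near g
  have h1 := Tn.le h.pos (hl.tend _ _ (h.bd_sigma g hy) (h.bd_rho g hy))
    (Tn.mul (f := err) h.small L) (Eventually.of_forall fun j => hL j (y j))
  rw [mul_zero] at h1
  exact (dist_le_zero.1 h1).symm

theorem Seq.disp (h : Seq U ω S ρ σ A x μ err) (hl : IsLim ω σ x μ lim) (g : U)
    {y : ∀ j, S j} (hy : Bd ω x μ y) :
    Tn ω μ (fun j => dist (y j) (ρ j g (y j))) (dist (lim y) ((g : G) • lim y)) := by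
  rw [← h.rho_lim hl g hy]
  exact hl.tend _ _ hy (h.bd_rho g hy)

theorem Seq.disp0 (h : Seq U ω S ρ σ A x μ err) (hl : IsLim ω σ x μ lim) {g : U}
    {y : ∀ j, S j} (hy : Bd ω x μ y) (hg : (g : G) • lim y = lim y) :
    Tn ω μ (fun j => dist (y j) (ρ j g (y j))) 0 := by
  have := h.disp hl g hy
  rwa [hg, dist_self] at this

theorem Seq.btw_lim (h : Seq U ω S ρ σ A x μ err) (hl : IsLim ω σ x μ lim) {y m z : ∀ j, S j}
    (hy : Bd ω x μ y) (hm : Bd ω x μ m) (hz : Bd ω x μ z) (L : ℝ)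
    (hb : ∀ j, dist (y j) (m j) + dist (m j) (z j) ≤ dist (y j) (z j) + L * err j) :
    Btw (lim y) (lim m) (lim z) := by
  have h1 := Tn.le h.pos ((hl.tend _ _ hy hm).add (hl.tend _ _ hm hz))
    ((hl.tend _ _ hy hz).add (Tn.mul (f := err) h.small L)) (Eventually.of_forall hb)
  exact bof (by linarith)

theorem Seq.btw_lim0 (h : Seq U ω S ρ σ A x μ err) (hl : IsLim ω σ x μ lim) {y m z : ∀ j, S j}
    (hy : Bd ω x μ y) (hm : Bd ω x μ m) (hz : Bd ω x μ z) (hb : ∀ j, Btw (y j) (m j) (z j)) :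
    Btw (lim y) (lim m) (lim z) :=
  h.btw_lim hl hy hm hz 0 fun j => by
    have := hb j
    unfold Q2T1.Btw at this
    linarith

theorem bd_of_btw {y m z : ∀ j, S j} (hy : Bd ω x μ y) (hz : Bd ω x μ z)
    (hb : ∀ j, Btw (y j) (m j) (z j)) : Bd ω x μ m := by
  obtain ⟨C, hC⟩ := hy
  obtain ⟨D, hD⟩ := hz
  refine ⟨2 * C + D, ?_⟩
  filter_upwards [hC, hD] with j h1 h2
  have h3 := hb j
  unfold Q2T1.Btw at h3
  have h4 := dist_triangle (x j) (y j) (m j)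
  have h5 := dist_triangle_left (y j) (z j) (x j)
  have h6 := dist_nonneg (x := m j) (y := z j)
  linarith

theorem Seq.meds (h : Seq U ω S ρ σ A x μ err) (y z w : ∀ j, S j) : ∃ m : ∀ j, S j,
    (∀ j, Btw (y j) (m j) (z j)) ∧ (∀ j, Btw (z j) (m j) (w j)) ∧ ∀ j, Btw (y j) (m j) (w j) := by
  choose m h1 h2 h3 using fun j => (h.simp j).ex_med (y j) (z j) (w j)
  exact ⟨m, h1, h2, h3⟩

theorem Seq.tree (h : Seq U ω S ρ σ A x μ err) (hl : IsLim ω σ x μ lim) : IsTree X := by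
  constructor
  · intro p q r s
    obtain ⟨p, hp, rfl⟩ := hl.surj p
    obtain ⟨q, hq, rfl⟩ := hl.surj q
    obtain ⟨r, hr, rfl⟩ := hl.surj r
    obtain ⟨s, hs, rfl⟩ := hl.surj s
    by_contra hc
    rw [not_le, max_lt_iff] at hc
    have t0 := (hl.tend _ _ hp hq).add (hl.tend _ _ hr hs)
    have t1 := Tn.lt h.pos ((hl.tend _ _ hp hr).add (hl.tend _ _ hq hs)) t0 hc.1
    have t2 := Tn.lt h.pos ((hl.tend _ _ hp hs).add (hl.tend _ _ hq hr)) t0 hc.2
    obtain ⟨j, h1, h2⟩ := (t1.and t2).exists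
    exact absurd ((h.simp j).four (p j) (q j) (r j) (s j)) (not_le.2 (max_lt h1 h2))
  · intro p q r
    obtain ⟨p, hp, rfl⟩ := hl.surj p
    obtain ⟨q, hq, rfl⟩ := hl.surj q
    obtain ⟨r, hr, rfl⟩ := hl.surj r
    obtain ⟨m, h1, h2, h3⟩ := h.meds p q r
    have hm := bd_of_btw hp hq h1
    exact ⟨lim m, h.btw_lim0 hl hp hm hq h1, h.btw_lim0 hl hq hm hr h2, h.btw_lim0 hl hp hm hr h3⟩

theorem Seq.bact (h : Seq U ω S ρ σ A x μ err) (hl : IsLim ω σ x μ lim) : BAct G X := by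
  have := h.tree hl
  constructor
  intro β p q r hb
  obtain ⟨p, hp, rfl⟩ := hl.surj p
  obtain ⟨q, hq, rfl⟩ := hl.surj q
  obtain ⟨r, hr, rfl⟩ := hl.surj r
  obtain ⟨m, h1, h2, h3⟩ := h.meds p q r
  have hm := bd_of_btw hp hq h1
  have e : lim m = lim q := med_uniq (h.btw_lim0 hl hp hm hq h1) (h.btw_lim0 hl hq hm hr h2)
    (h.btw_lim0 hl hp hm hr h3) (bright _ _) (bleft _ _) hb
  obtain ⟨L, hL⟩ := h.btw β
  rw [← e, ← hl.act β p hp, ← hl.act β m hm, ← hl.act β r hr]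
  exact h.btw_lim hl (h.bd_sigma β hp) (h.bd_sigma β hm) (h.bd_sigma β hr) L
    fun j => hL j _ _ _ (h3 j)

theorem Seq.isomU (h : Seq U ω S ρ σ A x μ err) (hl : IsLim ω σ x μ lim) (g : U) (p q : X) :
    dist ((g : G) • p) ((g : G) • q) = dist p q := by
  obtain ⟨p, hp, rfl⟩ := hl.surj p
  obtain ⟨q, hq, rfl⟩ := hl.surj q
  rw [← h.rho_lim hl g hp, ← h.rho_lim hl g hq]
  have h1 := hl.tend _ _ (h.bd_rho g hp) (h.bd_rho g hq)
  simp only [h.isom] at h1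
  exact tendsto_nhds_unique h1 (hl.tend _ _ hp hq)

theorem Seq.isomG (h : Seq U ω S ρ σ A x μ err) (hl : IsLim ω σ x μ lim) (β : G)
    (hβ : ∀ j y z, dist (σ j β y) (σ j β z) = dist y z) (p q : X) :
    dist (β • p) (β • q) = dist p q := by
  obtain ⟨p, hp, rfl⟩ := hl.surj p
  obtain ⟨q, hq, rfl⟩ := hl.surj q
  rw [← hl.act β p hp, ← hl.act β q hq]
  have h1 := hl.tend _ _ (h.bd_sigma β hp) (h.bd_sigma β hq)
  simp only [hβ] at h1
  exact tendsto_nhds_unique h1 (hl.tend _ _ hp hq)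

end Pool.Agent.MP_3ce0a0_al.Q2T5
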