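import Pool.Agent.MP_3ce0a0_al.Q2T5.Small

/-!
The ultralimit of a sequence of actions on simplicial trees is very small.
-/

set_option autoImplicit false

namespace Pool.Agent.MP_3ce0a0_al.Q2T5

open Q2T1 Filter Topology

theorem hyp_of_lt {G X : Type} [Group G] [MetricSpace X] [MulAction G X] [IsTree X] {g : G}
    (hg : Iso fun y : X => g • y) {p : X} (h : dist p (g • p) < dist p (g • g • p)) :
    Hyp X g := by
  obtain ⟨c, c1, c2, c3⟩ := IsTree.ex_med p (g • p) (g • g • p)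
  obtain ⟨e1, e2⟩ := med_disp (f := fun y : X => g • y) hg c1 c2 c3
  rw [abs_of_pos (by linarith)] at e1
  have e3 : dist (g⁻¹ • c) c = dist c (g • c) := by
    have := hg (g⁻¹ • c) c
    simp only [smul_inv_smul] at this
    exact this.symm
  have e4 : dist p (g⁻¹ • c) = dist (g • p) c := by
    have := hg p (g⁻¹ • c)
    simp only [smul_inv_smul] at this
    exact this.symm
  have e5 : dist (g • c) (g • g • p) = dist (g • p) c := by
    rw [dist_comm (g • p) c]; exact hg c (g • p)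
  have e6 := dist_triangle4 p (g⁻¹ • c) (g • c) (g • g • p)
  refine ⟨c, fun e => ?_, bof (by linarith)⟩
  rw [e, dist_self] at e1
  linarith

variable {G : Type} [Group G] {U : Subgroup G} {ω : Ultrafilter ℕ} {S : ℕ → Type}
  [∀ j, MetricSpace (S j)] {ρ : ∀ j, U →* Equiv.Perm (S j)} {σ : ∀ j, G →* Equiv.Perm (S j)}
  {A : Finset U} {x : ∀ j, S j} {μ err : ℕ → ℝ}
  {X : Type} [MetricSpace X] [MulAction G X] {lim : (∀ j, S j) → X}

theorem Seq.v1 (h : Seq U ω S ρ σ A x μ err) (hl : IsLim ω σ x μ lim) (g k : U) (p q : X)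
    (hne : p ≠ q) (h1 : (g : G) • p = p) (h2 : (g : G) • q = q) (h3 : (k : G) • p = p)
    (h4 : (k : G) • q = q) : g * k = k * g := by
  obtain ⟨p, hp, rfl⟩ := hl.surj p
  obtain ⟨q, hq, rfl⟩ := hl.surj q
  by_contra hc
  have hw : (k * g)⁻¹ * (g * k) ≠ 1 := fun e => hc (inv_mul_eq_one.1 e).symm
  have t := (((h.disp0 hl hp h1).add (h.disp0 hl hq h2)).add
    ((h.disp0 hl hp h3).add (h.disp0 hl hq h4))).mul 4
  have t2 := Tn.lt h.pos t (hl.tend _ _ hp hq) (by simpa using hne)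
  obtain ⟨j, j1, j2⟩ := (t2.and (h.faith _ hw)).exists
  have n1 := dist_nonneg (x := p j) (y := ρ j g (p j))
  have n2 := dist_nonneg (x := q j) (y := ρ j g (q j))
  have n3 := dist_nonneg (x := p j) (y := ρ j k (p j))
  have n4 := dist_nonneg (x := q j) (y := ρ j k (q j))
  refine absurd (h.comm_at j2 (y := p j) (z := q j) ?_ ?_ ?_ ?_) (not_le.2 j1) <;> linarith

theorem Seq.hyp_ev (h : Seq U ω S ρ σ A x μ err) (hl : IsLim ω σ x μ lim) {g : U} (hg : g ≠ 1)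
    {p q : X} (hne : p ≠ q) (h1 : (g : G) • p = p) (h2 : (g : G) • q = q) :
    ∀ᶠ j in ω, ∃ w, dist w (ρ j g w) < dist w (ρ j g (ρ j g w)) := by
  obtain ⟨p, hp, rfl⟩ := hl.surj p
  obtain ⟨q, hq, rfl⟩ := hl.surj q
  have t := ((h.disp0 hl hp h1).add (h.disp0 hl hq h2)).mul 4
  have t2 := Tn.lt h.pos t (hl.tend _ _ hp hq) (by simpa using hne)
  filter_upwards [t2, h.faith g hg] with j j1 j2
  have := h.simp j
  have n1 := dist_nonneg (x := p j) (y := ρ j g (p j))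
  have n2 := dist_nonneg (x := q j) (y := ρ j g (q j))
  rcases hyp_two (h.iso j g) (x := p j) (y := q j) (by linarith) (by linarith) j1 with
    ⟨u, v, huv, hu, hv⟩ | hw
  · exact absurd (h.edge j g u v huv hu hv) j2
  · exact hw

theorem Seq.v4 (h : Seq U ω S ρ σ A x μ err) (hl : IsLim ω σ x μ lim) (g : U) (hg : g ≠ 1)
    (he : ∀ᶠ j in ω, ∃ y, ρ j g y = y) (p q : X) (h1 : (g : G) • p = p)
    (h2 : (g : G) • q = q) : p = q := by
  by_contra hne
  obtain ⟨j, ⟨w, hw⟩, y, hy⟩ := ((h.hyp_ev hl hg hne h1 h2).and he).exists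
  have := h.simp j
  exact no_fix (h.iso j g) hw y hy

theorem Seq.v2 (h : Seq U ω S ρ σ A x μ err) (hl : IsLim ω σ x μ lim) (g : U) (r : ℕ)
    (hg : g ^ r ≠ 1) (p q : X) (hne : p ≠ q) (h1 : ((g ^ r : U) : G) • p = p)
    (h2 : ((g ^ r : U) : G) • q = q) : (g : G) • p = p := by
  have hr : r ≠ 0 := by
    rintro rfl
    exact hg (pow_zero g)
  have hev := h.hyp_ev hl hg hne h1 h2
  obtain ⟨p, hp, rfl⟩ := hl.surj p
  have h3 := Tn.le h.pos (h.disp hl g hp) (h.disp0 hl hp h1) (by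
    filter_upwards [hev] with j hj
    obtain ⟨w, hw⟩ := hj
    have := h.simp j
    rw [map_pow, Equiv.Perm.coe_pow] at hw ⊢
    exact root_le (h.iso j g) hr hw (p j))
  exact (dist_le_zero.1 h3).symm

theorem Seq.v3 (h : Seq U ω S ρ σ A x μ err) (hl : IsLim ω σ x μ lim) (g : U) (hg : g ≠ 1)
    (m a b c : X) (ht : Tri m a b c) (h1 : (g : G) • a = a) (h2 : (g : G) • b = b) :
    (g : G) • c ≠ c := by
  intro h3
  have := h.tree hl
  obtain ⟨na, nb, nc, ab, bc, ac⟩ := ht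
  have hab : a ≠ b := by
    rintro rfl
    unfold Q2T1.Btw at ab
    rw [dist_self, dist_comm m a] at ab
    exact na (dist_le_zero.1 (by linarith))
  refine hab (h.v4 hl g hg ?_ a b h1 h2)
  obtain ⟨a, ha, rfl⟩ := hl.surj a
  obtain ⟨b, hb, rfl⟩ := hl.surj b
  obtain ⟨c, hc, rfl⟩ := hl.surj c
  obtain ⟨n, n1, n2, n3⟩ := h.meds a b c
  have hn := bd_of_btw ha hb n1
  have e : lim n = m := med_uniq (h.btw_lim0 hl ha hn hb n1) (h.btw_lim0 hl hb hn hc n2)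
    (h.btw_lim0 hl ha hn hc n3) ab bc ac
  subst e
  have ta := Tn.lt h.pos (h.disp0 hl ha h1) (hl.tend _ _ ha hn) (dist_pos.2 na)
  have tb := Tn.lt h.pos (h.disp0 hl hb h2) (hl.tend _ _ hb hn) (dist_pos.2 nb)
  have tc := Tn.lt h.pos (h.disp0 hl hc h3) (hl.tend _ _ hc hn) (dist_pos.2 nc)
  filter_upwards [ta, tb, tc] with j ja jb jc
  have := h.simp j
  have hi := h.iso j g
  refine ⟨n j, med_uniq (hi.btw (n1 j)) (hi.btw (n2 j)) (hi.btw (n3 j))
    (move2 (n1 j) ja.le ?_) (move2 (n2 j) jb.le ?_) (move2 (n3 j) ja.le ?_)⟩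
  · rw [dist_comm (n j)]; exact jb.le
  · rw [dist_comm (n j)]; exact jc.le
  · rw [dist_comm (n j)]; exact jc.le

theorem Seq.nofix (h : Seq U ω S ρ σ A x μ err) (hl : IsLim ω σ x μ lim) (p : X) :
    ∃ g ∈ U, g • p ≠ p := by
  obtain ⟨p, hp, rfl⟩ := hl.surj p
  by_contra hc
  push Not at hc
  have h1 : ∀ a ∈ A, ∀ᶠ j in ω, dist (p j) (ρ j a (p j)) < 1 * μ j := fun a _ =>
    Tn.lt h.pos (h.disp0 hl hp (hc a a.2)) (tn_mu h.pos 1) zero_lt_one
  obtain ⟨j, hj⟩ := ((eventually_all_finset A).2 h1).exists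
  obtain ⟨a, ha, h2⟩ := h.least j (p j)
  have := hj a ha
  linarith

theorem Seq.mid_ev (h : Seq U ω S ρ σ A x μ err) {g : U} (hg : g ≠ 1) :
    ∃ y, Bd ω x μ y ∧ ∀ᶠ j in ω, dist (y j) (ρ j g (y j)) ≤
      max (dist (x j) (ρ j g (ρ j g (x j))) - dist (x j) (ρ j g (x j))) 0 := by
  have key := fun j => @mid (S j) _ (h.simp j) _ (h.iso j g) (x j)
  choose y hy1 hy2 using key
  obtain ⟨C, hC⟩ := h.bd_rho0 g
  refine ⟨y, ⟨C, ?_⟩, ?_⟩
  · filter_upwards [hC] with j hj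
    exact (hy1 j).trans hj
  · filter_upwards [h.faith (g * g) fun e => hg (h.tf g e)] with j hj
    rcases hy2 j with h1 | ⟨h1, h2⟩
    · exact h1
    · refine absurd (h.edge j (g * g) _ _ h1 ?_ ?_) hj
      · rw [map_mul, Equiv.Perm.mul_apply, h2]
      · rw [map_mul, Equiv.Perm.mul_apply, h2]

theorem Seq.ell_of (h : Seq U ω S ρ σ A x μ err) (hl : IsLim ω σ x μ lim) (g : U)
    (hs : ∀ ε : ℝ, 0 < ε → ∀ᶠ j in ω,
      dist (x j) (ρ j g (ρ j g (x j))) - dist (x j) (ρ j g (x j)) ≤ ε * μ j) :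
    Ell X (g : G) := by
  by_cases hg : g = 1
  · exact ⟨lim x, by simp [hg]⟩
  obtain ⟨y, hy, hev⟩ := h.mid_ev hg
  refine ⟨lim y, (dist_le_zero.1 (le_of_forall_pos_le_add fun ε hε => ?_)).symm⟩
  rw [zero_add]
  refine Tn.le h.pos (h.disp hl g hy) (tn_mu h.pos ε) ?_
  filter_upwards [h.pos, hev, hs ε hε] with j h0 h1 h2
  exact h1.trans (max_le h2 (mul_pos hε h0).le)

theorem Seq.ell_iff (h : Seq U ω S ρ σ A x μ err) (hl : IsLim ω σ x μ lim) (g : U) :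
    Ell X (g : G) ↔ ∀ ε : ℝ, 0 < ε → ∀ᶠ j in ω, ∃ y, dist y (ρ j g y) ≤ ε * μ j := by
  constructor
  · rintro ⟨p, hp⟩ ε hε
    obtain ⟨p, hb, rfl⟩ := hl.surj p
    filter_upwards [Tn.lt h.pos (h.disp0 hl hb hp) (tn_mu h.pos ε) hε] with j hj
    exact ⟨p j, hj.le⟩
  · intro hs
    refine h.ell_of hl g fun ε hε => ?_
    filter_upwards [hs ε hε] with j hj
    obtain ⟨y, hy⟩ := hj
    have := h.simp j
    exact (tl_lower (h.iso j g) (x j) y).trans hy

theorem Seq.dich (h : Seq U ω S ρ σ A x μ err) (hl : IsLim ω σ x μ lim) : Dich X U := by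
  intro g hg
  have := h.tree hl
  rcases lt_or_ge (dist (lim x) (g • lim x)) (dist (lim x) (g • g • lim x)) with h1 | h1
  · exact Or.inr (hyp_of_lt (h.isomU hl ⟨g, hg⟩) h1)
  · refine Or.inl (h.ell_of hl ⟨g, hg⟩ fun ε hε => ?_)
    have hx := bd_base ω x μ
    have t1 := h.disp hl ⟨g, hg⟩ hx
    have t2 := hl.tend _ _ hx (h.bd_rho ⟨g, hg⟩ (h.bd_rho ⟨g, hg⟩ hx))
    rw [h.rho_lim hl ⟨g, hg⟩ (h.bd_rho ⟨g, hg⟩ hx), h.rho_lim hl ⟨g, hg⟩ hx] at t2
    filter_upwards [Tn.lt h.pos (t2.sub t1) (tn_mu h.pos ε) (by linarith)] with j hj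
    exact hj.le

end Pool.Agent.MP_3ce0a0_al.Q2T5
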